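import Pool.Agent.Q301.TM.Defs
import Pool.Agent.H310R3.MetDefs
import Pool.Agent.H310R3.TopDefs

/-!
# Quasi-metric spaces in a model of set theory: definitions
-/

namespace Pool.Agent.Q301.QM

open FirstOrder FirstOrder.Language
open Pool.Agent.Helper672.Plain (LSet Mem IsOrdPair El)
open Pool.Agent.H310Top (IsTopology)

universe u

variable {M : Type u} [LSet.Structure M] {x r : M} [Field (El r)] [LinearOrder (El r)]

/-- `d` is a quasi-metric on the set `x` with values in `r`, and `d` is in the model: the set of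
the `((a, b), c)` with `d a b = c` is an element of the model. -/
structure IsQuasiMetric (d : El x → El x → El r) : Prop where
  graph : ∃ g, ∀ (a b : El x) (c : El r),
    d a b = c ↔ ∃ p q, IsOrdPair p a.1 b.1 ∧ IsOrdPair q p c.1 ∧ Mem q g
  nonneg : ∀ a b, 0 ≤ d a b
  self : ∀ a, d a a = 0
  tri : ∀ a b c, d a c ≤ d a b + d b c
  sep : ∀ a b, d a b = 0 → d b a = 0 → a = b

/-- `u` is the ball with centre `a` and radius `ε`. -/
def IsBall (d : El x → El x → El r) (u : M) (a : El x) (ε : El r) : Prop :=
  (∀ z, Mem z u → Mem z x) ∧ ∀ b : El x, Mem b.1 u ↔ d a b < ε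

/-- `t` is the topology on `x` generated by the balls. -/
def Induces (d : El x → El x → El r) (t : M) : Prop :=
  IsTopology t x ∧ (∀ u a ε, 0 < ε → IsBall d u a ε → Mem u t) ∧
    ∀ t', IsTopology t' x → (∀ u a ε, 0 < ε → IsBall d u a ε → Mem u t') → ∀ u, Mem u t → Mem u t'

end Pool.Agent.Q301.QM
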