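import Pool.Agent.Q301.TM.RealX
import Pool.Agent.Q301.QM.Defs

/-!
# The metrization lemma
-/

set_option maxHeartbeats 1000000
set_option linter.all false
set_option synthInstance.maxSize 2000

namespace Pool.Agent.Q301.QM

open FirstOrder FirstOrder.Language
open Pool.Agent.Helper672.ZFA
open Pool.Agent.Helper672.Plain (LSet)
open Pool.Agent.Helper672.ZFA.H635 (toL plainN_ordPair plainN_graph plainN_opGraph)
open Pool.Agent.H635Amen (IsReals)
open Pool.Agent.H310Cards (IsOmega IsFinite IsFun App IsInj IsNat)
open Pool.Agent.H310Top (IsTopology IsClosed IsCompact IsHausdorff)
open Pool.Agent.H310 (FinP finP_iff finP_le finP_lt exists_BN mem_nat nat_iff appN finite_of_finP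
  mem_cp extN exists_code instPEl exists_q pr int_pr pr_inj)
open Pool.Agent.Q301.TM

universe u u₁

attribute [local instance] toL instPEl

section

variable {N : Type u} [LSet.Structure N] [hM : IsModel N] {x t : N}
variable {r : N} [Field (Helper672.Plain.El r)] [LinearOrder (Helper672.Plain.El r)] [IsStrictOrderedRing (Helper672.Plain.El r)]

/-- The sequence of the powers of one half. -/
structure HS (q : INat N → Helper672.Plain.El r) : Prop where
  int : IntF N q
  zero : q 0 = 1
  succ : ∀ n, q n.succ + q n.succ = q n
  pos : ∀ n, 0 < q n
  lim : ∀ ε, 0 < ε → ∃ n, q n < ε

theorem exists_hs (hr : IsReals r) : ∃ q : INat N → Helper672.Plain.El r, HS q := by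
  have hadd := int_add hr
  have hle := int_le hr
  obtain ⟨F, hF, hFy⟩ : ∃ F : Helper672.Plain.El r → Helper672.Plain.El r, IntF N F ∧ ∀ y, F y = y / 2 := by
    refine ⟨fun y => y / 2, ?_, fun y => rfl⟩
    refine IntF.of_rel (r := fun y z => z + z = y) (by (repeat' (first | with_reducible exact IntF.id | with_reducible exact IntF.fst' | with_reducible exact IntF.snd' | with_reducible exact IntF.const _ | with_reducible exact Int.const _ | assumption | with_reducible apply Int.and | with_reducible apply Int.or | with_reducible apply Int.not | with_reducible apply Int.imp | with_reducible apply Int.iff | with_reducible apply Int.ne | with_reducible apply Int.eq | with_reducible apply Int.mem | with_reducible apply Int.subset | with_reducible apply Int.ltN | with_reducible apply Int.leN | with_reducible_and_instances apply Int.le | with_reducible_and_instances apply Int.lt | with_reducible apply Int.all | with_reducible apply Int.ex | with_reducible apply IntF.fst | with_reducible apply IntF.snd | with_reducible apply IntF.app | with_reducible apply IntF.inl | with_reducible apply IntF.inr | with_reducible_and_instances apply IntF.mul | with_reducible_and_instances apply IntF.inv | with_reducible_and_instances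 apply IntF.add | with_reducible_and_instances apply IntF.sub | with_reducible_and_instances apply IntF.neg | with_reducible_and_instances apply IntF.smul | with_reducible apply Int.fin | with_reducible apply IntF.sep | with_reducible apply IntF.lam | with_reducible apply IntF.insert | with_reducible apply IntF.singleton | with_reducible apply IntF.union | with_reducible apply IntF.iimage | with_reducible apply IntF.ite | with_reducible apply IntF.the | with_reducible apply IntF.irec | with_reducible apply IntF.succ | with_reducible apply IntF.val | with_reducible apply IntF.mk | (with_reducible refine Int.comp ?_ ?_; assumption) | (with_reducible refine Int.comp₂ ?_ ?_ ?_; assumption) | (with_reducible refine Int.comp₃ ?_ ?_ ?_ ?_; assumption) | (with_reducible refine Int.comp₄ ?_ ?_ ?_ ?_ ?_; assumption) | (with_reducible refine IntF.comp ?_ ?_; assumption) | (with_reducible refine IntF.comp₂ ?_ ?_ ?_; assumption) | (with_reducible refine IntF.comp₃ ?_ ?_ ?_ ?_; assumption) | with_reducible apply IntF.pair))) fun y z => ?_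
    rw [div_eq_iff two_ne_zero, mul_two]
    exact eq_comm
  have hq : IntF N (fun n : INat N => irec (1 : Helper672.Plain.El r) (fun _ y => F y) n) := by (repeat' (first | with_reducible exact IntF.id | with_reducible exact IntF.fst' | with_reducible exact IntF.snd' | with_reducible exact IntF.const _ | with_reducible exact Int.const _ | assumption | with_reducible apply Int.and | with_reducible apply Int.or | with_reducible apply Int.not | with_reducible apply Int.imp | with_reducible apply Int.iff | with_reducible apply Int.ne | with_reducible apply Int.eq | with_reducible apply Int.mem | with_reducible apply Int.subset | with_reducible apply Int.ltN | with_reducible apply Int.leN | with_reducible_and_instances apply Int.le | with_reducible_and_instances apply Int.lt | with_reducible apply Int.all | with_reducible apply Int.ex | with_reducible apply IntF.fst | with_reducible apply IntF.snd | with_reducible apply IntF.app | with_reducible apply IntF.inl | with_reducible apply IntF.inr | with_reducible_and_instances apply IntF.mul | with_reducible_and_instances apply IntF.inv | with_reducible_and_instances apply IntF.add | with_reducible_and_instances apply IntF.sub | with_reducible_and_instances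 apply IntF.neg | with_reducible_and_instances apply IntF.smul | with_reducible apply Int.fin | with_reducible apply IntF.sep | with_reducible apply IntF.lam | with_reducible apply IntF.insert | with_reducible apply IntF.singleton | with_reducible apply IntF.union | with_reducible apply IntF.iimage | with_reducible apply IntF.ite | with_reducible apply IntF.the | with_reducible apply IntF.irec | with_reducible apply IntF.succ | with_reducible apply IntF.val | with_reducible apply IntF.mk | (with_reducible refine Int.comp ?_ ?_; assumption) | (with_reducible refine Int.comp₂ ?_ ?_ ?_; assumption) | (with_reducible refine Int.comp₃ ?_ ?_ ?_ ?_; assumption) | (with_reducible refine Int.comp₄ ?_ ?_ ?_ ?_ ?_; assumption) | (with_reducible refine IntF.comp ?_ ?_; assumption) | (with_reducible refine IntF.comp₂ ?_ ?_ ?_; assumption) | (with_reducible refine IntF.comp₃ ?_ ?_ ?_ ?_; assumption) | with_reducible apply IntF.pair))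
  have hs : ∀ n : INat N, irec (1 : Helper672.Plain.El r) (fun _ y => F y) n.succ =
      irec (1 : Helper672.Plain.El r) (fun _ y => F y) n / 2 := fun n => by
    rw [irec_succ (by (repeat' (first | with_reducible exact IntF.id | with_reducible exact IntF.fst' | with_reducible exact IntF.snd' | with_reducible exact IntF.const _ | with_reducible exact Int.const _ | assumption | with_reducible apply Int.and | with_reducible apply Int.or | with_reducible apply Int.not | with_reducible apply Int.imp | with_reducible apply Int.iff | with_reducible apply Int.ne | with_reducible apply Int.eq | with_reducible apply Int.mem | with_reducible apply Int.subset | with_reducible apply Int.ltN | with_reducible apply Int.leN | with_reducible_and_instances apply Int.le | with_reducible_and_instances apply Int.lt | with_reducible apply Int.all | with_reducible apply Int.ex | with_reducible apply IntF.fst | with_reducible apply IntF.snd | with_reducible apply IntF.app | with_reducible apply IntF.inl | with_reducible apply IntF.inr | with_reducible_and_instances apply IntF.mul | with_reducible_and_instances apply IntF.inv | with_reducible_and_instances apply IntF.add | with_reducible_and_instances apply IntF.sub |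 with_reducible_and_instances apply IntF.neg | with_reducible_and_instances apply IntF.smul | with_reducible apply Int.fin | with_reducible apply IntF.sep | with_reducible apply IntF.lam | with_reducible apply IntF.insert | with_reducible apply IntF.singleton | with_reducible apply IntF.union | with_reducible apply IntF.iimage | with_reducible apply IntF.ite | with_reducible apply IntF.the | with_reducible apply IntF.irec | with_reducible apply IntF.succ | with_reducible apply IntF.val | with_reducible apply IntF.mk | (with_reducible refine Int.comp ?_ ?_; assumption) | (with_reducible refine Int.comp₂ ?_ ?_ ?_; assumption) | (with_reducible refine Int.comp₃ ?_ ?_ ?_ ?_; assumption) | (with_reducible refine Int.comp₄ ?_ ?_ ?_ ?_ ?_; assumption) | (with_reducible refine IntF.comp ?_ ?_; assumption) | (with_reducible refine IntF.comp₂ ?_ ?_ ?_; assumption) | (with_reducible refine IntF.comp₃ ?_ ?_ ?_ ?_; assumption) | with_reducible apply IntF.pair))) n, hFy]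
  have h0 : irec (1 : Helper672.Plain.El r) (fun _ y => F y) (0 : INat N) = 1 := irec_zero (by (repeat' (first | with_reducible exact IntF.id | with_reducible exact IntF.fst' | with_reducible exact IntF.snd' | with_reducible exact IntF.const _ | with_reducible exact Int.const _ | assumption | with_reducible apply Int.and | with_reducible apply Int.or | with_reducible apply Int.not | with_reducible apply Int.imp | with_reducible apply Int.iff | with_reducible apply Int.ne | with_reducible apply Int.eq | with_reducible apply Int.mem | with_reducible apply Int.subset | with_reducible apply Int.ltN | with_reducible apply Int.leN | with_reducible_and_instances apply Int.le | with_reducible_and_instances apply Int.lt | with_reducible apply Int.all | with_reducible apply Int.ex | with_reducible apply IntF.fst | with_reducible apply IntF.snd | with_reducible apply IntF.app | with_reducible apply IntF.inl | with_reducible apply IntF.inr | with_reducible_and_instances apply IntF.mul | with_reducible_and_instances apply IntF.inv | with_reducible_and_instances apply IntF.add | with_reducible_and_instances apply IntF.sub | with_reducible_and_instances apply IntF.neg | with_reducible_and_instances apply IntF.smul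 | with_reducible apply Int.fin | with_reducible apply IntF.sep | with_reducible apply IntF.lam | with_reducible apply IntF.insert | with_reducible apply IntF.singleton | with_reducible apply IntF.union | with_reducible apply IntF.iimage | with_reducible apply IntF.ite | with_reducible apply IntF.the | with_reducible apply IntF.irec | with_reducible apply IntF.succ | with_reducible apply IntF.val | with_reducible apply IntF.mk | (with_reducible refine Int.comp ?_ ?_; assumption) | (with_reducible refine Int.comp₂ ?_ ?_ ?_; assumption) | (with_reducible refine Int.comp₃ ?_ ?_ ?_ ?_; assumption) | (with_reducible refine Int.comp₄ ?_ ?_ ?_ ?_ ?_; assumption) | (with_reducible refine IntF.comp ?_ ?_; assumption) | (with_reducible refine IntF.comp₂ ?_ ?_ ?_; assumption) | (with_reducible refine IntF.comp₃ ?_ ?_ ?_ ?_; assumption) | with_reducible apply IntF.pair)))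
  have hlt := int_lt hr
  have hpos : ∀ n : INat N, 0 < irec (1 : Helper672.Plain.El r) (fun _ y => F y) n := by
    refine INat.ind (by (repeat' (first | with_reducible exact IntF.id | with_reducible exact IntF.fst' | with_reducible exact IntF.snd' | with_reducible exact IntF.const _ | with_reducible exact Int.const _ | assumption | with_reducible apply Int.and | with_reducible apply Int.or | with_reducible apply Int.not | with_reducible apply Int.imp | with_reducible apply Int.iff | with_reducible apply Int.ne | with_reducible apply Int.eq | with_reducible apply Int.mem | with_reducible apply Int.subset | with_reducible apply Int.ltN | with_reducible apply Int.leN | with_reducible_and_instances apply Int.le | with_reducible_and_instances apply Int.lt | with_reducible apply Int.all | with_reducible apply Int.ex | with_reducible apply IntF.fst | with_reducible apply IntF.snd | with_reducible apply IntF.app | with_reducible apply IntF.inl | with_reducible apply IntF.inr | with_reducible_and_instances apply IntF.mul | with_reducible_and_instances apply IntF.inv | with_reducible_and_instances apply IntF.add | with_reducible_and_instances apply IntF.sub | with_reducible_and_instances apply IntF.neg |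 with_reducible_and_instances apply IntF.smul | with_reducible apply Int.fin | with_reducible apply IntF.sep | with_reducible apply IntF.lam | with_reducible apply IntF.insert | with_reducible apply IntF.singleton | with_reducible apply IntF.union | with_reducible apply IntF.iimage | with_reducible apply IntF.ite | with_reducible apply IntF.the | with_reducible apply IntF.irec | with_reducible apply IntF.succ | with_reducible apply IntF.val | with_reducible apply IntF.mk | (with_reducible refine Int.comp ?_ ?_; assumption) | (with_reducible refine Int.comp₂ ?_ ?_ ?_; assumption) | (with_reducible refine Int.comp₃ ?_ ?_ ?_ ?_; assumption) | (with_reducible refine Int.comp₄ ?_ ?_ ?_ ?_ ?_; assumption) | (with_reducible refine IntF.comp ?_ ?_; assumption) | (with_reducible refine IntF.comp₂ ?_ ?_ ?_; assumption) | (with_reducible refine IntF.comp₃ ?_ ?_ ?_ ?_; assumption) | with_reducible apply IntF.pair))) ?_ ?_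
    · rw [h0]
      exact one_pos
    · intro n ih
      rw [hs]
      exact half_pos ih
  refine ⟨_, hq, h0, fun n => by rw [hs]; exact add_halves _, hpos, fun ε hε => ?_⟩
  by_contra hc
  push Not at hc
  have hS : Int N (fun x : Helper672.Plain.El r => ∀ n : INat N, x ≤ irec (1 : Helper672.Plain.El r) (fun _ y => F y) n) := by
    (repeat' (first | with_reducible exact IntF.id | with_reducible exact IntF.fst' | with_reducible exact IntF.snd' | with_reducible exact IntF.const _ | with_reducible exact Int.const _ | assumption | with_reducible apply Int.and | with_reducible apply Int.or | with_reducible apply Int.not | with_reducible apply Int.imp | with_reducible apply Int.iff | with_reducible apply Int.ne | with_reducible apply Int.eq | with_reducible apply Int.mem | with_reducible apply Int.subset | with_reducible apply Int.ltN | with_reducible apply Int.leN | with_reducible_and_instances apply Int.le | with_reducible_and_instances apply Int.lt | with_reducible apply Int.all | with_reducible apply Int.ex | with_reducible apply IntF.fst | with_reducible apply IntF.snd | with_reducible apply IntF.app | with_reducible apply IntF.inl | with_reducible apply IntF.inr | with_reducible_and_instances apply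 IntF.mul | with_reducible_and_instances apply IntF.inv | with_reducible_and_instances apply IntF.add | with_reducible_and_instances apply IntF.sub | with_reducible_and_instances apply IntF.neg | with_reducible_and_instances apply IntF.smul | with_reducible apply Int.fin | with_reducible apply IntF.sep | with_reducible apply IntF.lam | with_reducible apply IntF.insert | with_reducible apply IntF.singleton | with_reducible apply IntF.union | with_reducible apply IntF.iimage | with_reducible apply IntF.ite | with_reducible apply IntF.the | with_reducible apply IntF.irec | with_reducible apply IntF.succ | with_reducible apply IntF.val | with_reducible apply IntF.mk | (with_reducible refine Int.comp ?_ ?_; assumption) | (with_reducible refine Int.comp₂ ?_ ?_ ?_; assumption) | (with_reducible refine Int.comp₃ ?_ ?_ ?_ ?_; assumption) | (with_reducible refine Int.comp₄ ?_ ?_ ?_ ?_ ?_; assumption) | (with_reducible refine IntF.comp ?_ ?_; assumption) | (with_reducible refine IntF.comp₂ ?_ ?_ ?_; assumption) | (with_reducible refine IntF.comp₃ ?_ ?_ ?_ ?_; assumption) | with_reducible apply IntF.pair))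
  obtain ⟨S, hS1⟩ := exists_set hS
  obtain ⟨c, h1, h2⟩ := hr.complete ⟨S, fun z hz => ((hS1 z).1 hz).1⟩
    ⟨ε.1, (hS1 _).2 ⟨ε.2, hc⟩⟩
    ⟨1, fun w hw => by
      obtain ⟨_, hn⟩ := (hS1 w.1).1 hw
      have h3 := hn 0
      rw [h0] at h3
      exact h3⟩
  have h3 : ∀ n : INat N, c ≤ irec (1 : Helper672.Plain.El r) (fun _ y => F y) n := fun n => h2 fun w hw => by
    obtain ⟨_, hn⟩ := (hS1 w.1).1 hw
    exact hn n
  have h4 : c + c ≤ c := h1 ((hS1 _).2 ⟨(c + c).2, fun n => by
    have := h3 n.succ
    rw [hs] at this
    change c + c ≤ _
    linarith⟩)
  have h5 : ε ≤ c := h1 ((hS1 _).2 ⟨ε.2, hc⟩)
  linarith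

variable {q : INat N → Helper672.Plain.El r} (hq : HS q)

include hq in
theorem HS.lt (n : INat N) : q n.succ < q n := by
  have h1 := hq.succ n
  have h2 := hq.pos n.succ
  linarith

include hq in
theorem HS.anti (hr : IsReals r) {m n : INat N} (h : m ≤ n) : q n ≤ q m := by
  have hle := int_le hr
  have hqi := hq.int
  revert h
  refine INat.ind (p := fun n => m ≤ n → q n ≤ q m) (by (repeat' (first | with_reducible exact IntF.id | with_reducible exact IntF.fst' | with_reducible exact IntF.snd' | with_reducible exact IntF.const _ | with_reducible exact Int.const _ | assumption | with_reducible apply Int.and | with_reducible apply Int.or | with_reducible apply Int.not | with_reducible apply Int.imp | with_reducible apply Int.iff | with_reducible apply Int.ne | with_reducible apply Int.eq | with_reducible apply Int.mem | with_reducible apply Int.subset | with_reducible apply Int.ltN | with_reducible apply Int.leN | with_reducible_and_instances apply Int.le | with_reducible_and_instances apply Int.lt | with_reducible apply Int.all | with_reducible apply Int.ex | with_reducible apply IntF.fst | with_reducible apply IntF.snd | with_reducible apply IntF.app | with_reducible apply IntF.inl | with_reducible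 apply IntF.inr | with_reducible_and_instances apply IntF.mul | with_reducible_and_instances apply IntF.inv | with_reducible_and_instances apply IntF.add | with_reducible_and_instances apply IntF.sub | with_reducible_and_instances apply IntF.neg | with_reducible_and_instances apply IntF.smul | with_reducible apply Int.fin | with_reducible apply IntF.sep | with_reducible apply IntF.lam | with_reducible apply IntF.insert | with_reducible apply IntF.singleton | with_reducible apply IntF.union | with_reducible apply IntF.iimage | with_reducible apply IntF.ite | with_reducible apply IntF.the | with_reducible apply IntF.irec | with_reducible apply IntF.succ | with_reducible apply IntF.val | with_reducible apply IntF.mk | (with_reducible refine Int.comp ?_ ?_; assumption) | (with_reducible refine Int.comp₂ ?_ ?_ ?_; assumption) | (with_reducible refine Int.comp₃ ?_ ?_ ?_ ?_; assumption) | (with_reducible refine Int.comp₄ ?_ ?_ ?_ ?_ ?_; assumption) | (with_reducible refine IntF.comp ?_ ?_; assumption) | (with_reducible refine IntF.comp₂ ?_ ?_ ?_; assumption) | (with_reducible refine IntF.comp₃ ?_ ?_ ?_ ?_; assumption) | with_reducible apply IntF.pair))) ?_ ?_ n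
  · intro h
    rcases h.lt_or_eq with h1 | rfl
    · exact absurd h1 INat.not_lt_zero
    · exact le_rfl
  · intro n ih h
    rcases h.lt_or_eq with h1 | rfl
    · exact ((hq.lt n).le).trans (ih (INat.lt_succ_iff.1 h1))
    · exact le_rfl

/-- A sequence of relations as in the metrization lemma. -/
structure US (U : INat N × (Helper672.Plain.El x × Helper672.Plain.El x) → Prop) : Prop where
  int : Int N U
  zero : ∀ a b, U (0, (a, b))
  refl : ∀ n a, U (n, (a, a))
  symm : ∀ n a b, U (n, (a, b)) → U (n, (b, a))
  step : ∀ n a b c e, U (n.succ, (a, b)) → U (n.succ, (b, c)) → U (n.succ, (c, e)) → U (n, (a, e))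
  sep : ∀ a b, (∀ n, U (n, (a, b))) → a = b

variable {U : INat N × (Helper672.Plain.El x × Helper672.Plain.El x) → Prop} (hU : US U)

include hU in
theorem US.mono {m n : INat N} (h : m ≤ n) {a b : Helper672.Plain.El x} : U (n, (a, b)) → U (m, (a, b)) := by
  have hI := hU.int
  revert h
  refine INat.ind (p := fun n => m ≤ n → U (n, (a, b)) → U (m, (a, b))) (by (repeat' (first | with_reducible exact IntF.id | with_reducible exact IntF.fst' | with_reducible exact IntF.snd' | with_reducible exact IntF.const _ | with_reducible exact Int.const _ | assumption | with_reducible apply Int.and | with_reducible apply Int.or | with_reducible apply Int.not | with_reducible apply Int.imp | with_reducible apply Int.iff | with_reducible apply Int.ne | with_reducible apply Int.eq | with_reducible apply Int.mem | with_reducible apply Int.subset | with_reducible apply Int.ltN | with_reducible apply Int.leN | with_reducible_and_instances apply Int.le | with_reducible_and_instances apply Int.lt | with_reducible apply Int.all | with_reducible apply Int.ex | with_reducible apply IntF.fst | with_reducible apply IntF.snd | with_reducible apply IntF.app | with_reducible apply IntF.inl | with_reducible apply IntF.inr |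 with_reducible_and_instances apply IntF.mul | with_reducible_and_instances apply IntF.inv | with_reducible_and_instances apply IntF.add | with_reducible_and_instances apply IntF.sub | with_reducible_and_instances apply IntF.neg | with_reducible_and_instances apply IntF.smul | with_reducible apply Int.fin | with_reducible apply IntF.sep | with_reducible apply IntF.lam | with_reducible apply IntF.insert | with_reducible apply IntF.singleton | with_reducible apply IntF.union | with_reducible apply IntF.iimage | with_reducible apply IntF.ite | with_reducible apply IntF.the | with_reducible apply IntF.irec | with_reducible apply IntF.succ | with_reducible apply IntF.val | with_reducible apply IntF.mk | (with_reducible refine Int.comp ?_ ?_; assumption) | (with_reducible refine Int.comp₂ ?_ ?_ ?_; assumption) | (with_reducible refine Int.comp₃ ?_ ?_ ?_ ?_; assumption) | (with_reducible refine Int.comp₄ ?_ ?_ ?_ ?_ ?_; assumption) | (with_reducible refine IntF.comp ?_ ?_; assumption) | (with_reducible refine IntF.comp₂ ?_ ?_ ?_; assumption) | (with_reducible refine IntF.comp₃ ?_ ?_ ?_ ?_; assumption) | with_reducible apply IntF.pair))) ?_ ?_ n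
  · intro h h1
    rcases h.lt_or_eq with h2 | rfl
    · exact absurd h2 INat.not_lt_zero
    · exact h1
  · intro n ih h h1
    rcases h.lt_or_eq with h2 | rfl
    · exact ih (INat.lt_succ_iff.1 h2) (hU.step n a a a b (hU.refl _ _) (hU.refl _ _) h1)
    · exact h1

/-- The value is at most `s`. -/
def Fl (q : INat N → Helper672.Plain.El r) (U : INat N × (Helper672.Plain.El x × Helper672.Plain.El x) → Prop) (c : (Helper672.Plain.El x × Helper672.Plain.El x) × Helper672.Plain.El r) : Prop :=
  0 ≤ c.2 ∧ ∀ n : INat N, ¬ U (n.succ, c.1) → q n ≤ c.2

include hq hU in
theorem int_Fl (hr : IsReals r) : Int N (Fl q U) := by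
  have hle := int_le hr
  have hqi := hq.int
  have hI := hU.int
  unfold Fl
  (repeat' (first | with_reducible exact IntF.id | with_reducible exact IntF.fst' | with_reducible exact IntF.snd' | with_reducible exact IntF.const _ | with_reducible exact Int.const _ | assumption | with_reducible apply Int.and | with_reducible apply Int.or | with_reducible apply Int.not | with_reducible apply Int.imp | with_reducible apply Int.iff | with_reducible apply Int.ne | with_reducible apply Int.eq | with_reducible apply Int.mem | with_reducible apply Int.subset | with_reducible apply Int.ltN | with_reducible apply Int.leN | with_reducible_and_instances apply Int.le | with_reducible_and_instances apply Int.lt | with_reducible apply Int.all | with_reducible apply Int.ex | with_reducible apply IntF.fst | with_reducible apply IntF.snd | with_reducible apply IntF.app | with_reducible apply IntF.inl | with_reducible apply IntF.inr | with_reducible_and_instances apply IntF.mul | with_reducible_and_instances apply IntF.inv | with_reducible_and_instances apply IntF.add | with_reducible_and_instances apply IntF.sub | with_reducible_and_instances apply IntF.neg | with_reducible_and_instances apply IntF.smul | with_reducible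 apply Int.fin | with_reducible apply IntF.sep | with_reducible apply IntF.lam | with_reducible apply IntF.insert | with_reducible apply IntF.singleton | with_reducible apply IntF.union | with_reducible apply IntF.iimage | with_reducible apply IntF.ite | with_reducible apply IntF.the | with_reducible apply IntF.irec | with_reducible apply IntF.succ | with_reducible apply IntF.val | with_reducible apply IntF.mk | (with_reducible refine Int.comp ?_ ?_; assumption) | (with_reducible refine Int.comp₂ ?_ ?_ ?_; assumption) | (with_reducible refine Int.comp₃ ?_ ?_ ?_ ?_; assumption) | (with_reducible refine Int.comp₄ ?_ ?_ ?_ ?_ ?_; assumption) | (with_reducible refine IntF.comp ?_ ?_; assumption) | (with_reducible refine IntF.comp₂ ?_ ?_ ?_; assumption) | (with_reducible refine IntF.comp₃ ?_ ?_ ?_ ?_; assumption) | with_reducible apply IntF.pair))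

omit [IsStrictOrderedRing (Helper672.Plain.El r)] in
theorem Fl.mono {a b : Helper672.Plain.El x} {s s' : Helper672.Plain.El r} (h : Fl q U ((a, b), s)) (hs : s ≤ s') :
    Fl q U ((a, b), s') := ⟨h.1.trans hs, fun n hn => (h.2 n hn).trans hs⟩

include hU in
omit [IsStrictOrderedRing (Helper672.Plain.El r)] in
theorem Fl.self (a : Helper672.Plain.El x) : Fl q U ((a, a), 0) := ⟨le_rfl, fun n hn => absurd (hU.refl _ _) hn⟩

include hq hU in
theorem Fl.three {a b c e : Helper672.Plain.El x} {s : Helper672.Plain.El r} (h1 : Fl q U ((a, b), s)) (h2 : Fl q U ((b, c), s))
    (h3 : Fl q U ((c, e), s)) : Fl q U ((a, e), s + s) := by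
  refine ⟨add_nonneg h1.1 h1.1, fun n hn => ?_⟩
  have key : q n.succ ≤ s := by
    by_cases g1 : U (n.succ.succ, (a, b))
    · by_cases g2 : U (n.succ.succ, (b, c))
      · by_cases g3 : U (n.succ.succ, (c, e))
        · exact absurd (hU.step _ _ _ _ _ g1 g2 g3) hn
        · exact h3.2 _ g3
      · exact h2.2 _ g2
    · exact h1.2 _ g1
  have h4 := hq.succ n
  change q n ≤ s + s
  linarith

include hq hU in
theorem Fl.one (hr : IsReals r) (a b : Helper672.Plain.El x) : Fl q U ((a, b), 1) :=
  ⟨zero_le_one, fun n _ => by
    have h := hq.anti hr (INat.zero_le n)
    rw [hq.zero] at h
    exact h⟩

include hq hU in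
theorem Fl.of (hr : IsReals r) {n : INat N} {a b : Helper672.Plain.El x} (h : U (n, (a, b))) :
    Fl q U ((a, b), q n) :=
  ⟨(hq.pos n).le, fun k hk => hq.anti hr (by
    by_contra hc
    exact hk (hU.mono (INat.succ_le_iff.2 (not_le.1 hc)) h))⟩

/-- The step. -/
noncomputable def GS (q : INat N → Helper672.Plain.El r) (U : INat N × (Helper672.Plain.El x × Helper672.Plain.El x) → Prop)
    (S : IPow N ((Helper672.Plain.El x × Helper672.Plain.El x) × Helper672.Plain.El r)) : IPow N ((Helper672.Plain.El x × Helper672.Plain.El x) × Helper672.Plain.El r) :=
  sep N fun c => ∃ (d : Helper672.Plain.El x) (s s' : Helper672.Plain.El r), ((c.1.1, d), s) ∈ S ∧ Fl q U ((d, c.1.2), s') ∧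
    s + s' ≤ c.2

/-- The start. -/
noncomputable def G0 (N : Type u) [LSet.Structure N] [IsModel N] (x : N) (r : N) [Field (Helper672.Plain.El r)] [LinearOrder (Helper672.Plain.El r)] :
    IPow N ((Helper672.Plain.El x × Helper672.Plain.El x) × Helper672.Plain.El r) :=
  sep N fun c => c.1.1 = c.1.2 ∧ 0 ≤ c.2

/-- Chains. -/
def Ch (q : INat N → Helper672.Plain.El r) (U : INat N × (Helper672.Plain.El x × Helper672.Plain.El x) → Prop)
    (c : INat N × ((Helper672.Plain.El x × Helper672.Plain.El x) × Helper672.Plain.El r)) : Prop :=
  c.2 ∈ irec (G0 N x r) (fun _ S => GS q U S) c.1

include hq hU in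
theorem int_GS (hr : IsReals r) : IntF N (fun S => GS q U S) := by
  have hle := int_le hr
  have ha := int_add hr
  have hF := int_Fl hq hU hr
  unfold GS
  (repeat' (first | with_reducible exact IntF.id | with_reducible exact IntF.fst' | with_reducible exact IntF.snd' | with_reducible exact IntF.const _ | with_reducible exact Int.const _ | assumption | with_reducible apply Int.and | with_reducible apply Int.or | with_reducible apply Int.not | with_reducible apply Int.imp | with_reducible apply Int.iff | with_reducible apply Int.ne | with_reducible apply Int.eq | with_reducible apply Int.mem | with_reducible apply Int.subset | with_reducible apply Int.ltN | with_reducible apply Int.leN | with_reducible_and_instances apply Int.le | with_reducible_and_instances apply Int.lt | with_reducible apply Int.all | with_reducible apply Int.ex | with_reducible apply IntF.fst | with_reducible apply IntF.snd | with_reducible apply IntF.app | with_reducible apply IntF.inl | with_reducible apply IntF.inr | with_reducible_and_instances apply IntF.mul | with_reducible_and_instances apply IntF.inv | with_reducible_and_instances apply IntF.add | with_reducible_and_instances apply IntF.sub | with_reducible_and_instances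 apply IntF.neg | with_reducible_and_instances apply IntF.smul | with_reducible apply Int.fin | with_reducible apply IntF.sep | with_reducible apply IntF.lam | with_reducible apply IntF.insert | with_reducible apply IntF.singleton | with_reducible apply IntF.union | with_reducible apply IntF.iimage | with_reducible apply IntF.ite | with_reducible apply IntF.the | with_reducible apply IntF.irec | with_reducible apply IntF.succ | with_reducible apply IntF.val | with_reducible apply IntF.mk | (with_reducible refine Int.comp ?_ ?_; assumption) | (with_reducible refine Int.comp₂ ?_ ?_ ?_; assumption) | (with_reducible refine Int.comp₃ ?_ ?_ ?_ ?_; assumption) | (with_reducible refine Int.comp₄ ?_ ?_ ?_ ?_ ?_; assumption) | (with_reducible refine IntF.comp ?_ ?_; assumption) | (with_reducible refine IntF.comp₂ ?_ ?_ ?_; assumption) | (with_reducible refine IntF.comp₃ ?_ ?_ ?_ ?_; assumption) | with_reducible apply IntF.pair))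

include hq hU in
theorem int_Ch (hr : IsReals r) : Int N (Ch q U) := by
  have h := int_GS hq hU hr
  unfold Ch
  (repeat' (first | with_reducible exact IntF.id | with_reducible exact IntF.fst' | with_reducible exact IntF.snd' | with_reducible exact IntF.const _ | with_reducible exact Int.const _ | assumption | with_reducible apply Int.and | with_reducible apply Int.or | with_reducible apply Int.not | with_reducible apply Int.imp | with_reducible apply Int.iff | with_reducible apply Int.ne | with_reducible apply Int.eq | with_reducible apply Int.mem | with_reducible apply Int.subset | with_reducible apply Int.ltN | with_reducible apply Int.leN | with_reducible_and_instances apply Int.le | with_reducible_and_instances apply Int.lt | with_reducible apply Int.all | with_reducible apply Int.ex | with_reducible apply IntF.fst | with_reducible apply IntF.snd | with_reducible apply IntF.app | with_reducible apply IntF.inl | with_reducible apply IntF.inr | with_reducible_and_instances apply IntF.mul | with_reducible_and_instances apply IntF.inv | with_reducible_and_instances apply IntF.add | with_reducible_and_instances apply IntF.sub | with_reducible_and_instances apply IntF.neg | with_reducible_and_instances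 apply IntF.smul | with_reducible apply Int.fin | with_reducible apply IntF.sep | with_reducible apply IntF.lam | with_reducible apply IntF.insert | with_reducible apply IntF.singleton | with_reducible apply IntF.union | with_reducible apply IntF.iimage | with_reducible apply IntF.ite | with_reducible apply IntF.the | with_reducible apply IntF.irec | with_reducible apply IntF.succ | with_reducible apply IntF.val | with_reducible apply IntF.mk | (with_reducible refine Int.comp ?_ ?_; assumption) | (with_reducible refine Int.comp₂ ?_ ?_ ?_; assumption) | (with_reducible refine Int.comp₃ ?_ ?_ ?_ ?_; assumption) | (with_reducible refine Int.comp₄ ?_ ?_ ?_ ?_ ?_; assumption) | (with_reducible refine IntF.comp ?_ ?_; assumption) | (with_reducible refine IntF.comp₂ ?_ ?_ ?_; assumption) | (with_reducible refine IntF.comp₃ ?_ ?_ ?_ ?_; assumption) | with_reducible apply IntF.pair))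

include hq hU in
theorem Ch.zero (hr : IsReals r) {a b : Helper672.Plain.El x} {s : Helper672.Plain.El r} :
    Ch q U (0, ((a, b), s)) ↔ a = b ∧ 0 ≤ s := by
  have h := int_GS hq hU hr
  have hle := int_le hr
  unfold Ch
  rw [irec_zero (by (repeat' (first | with_reducible exact IntF.id | with_reducible exact IntF.fst' | with_reducible exact IntF.snd' | with_reducible exact IntF.const _ | with_reducible exact Int.const _ | assumption | with_reducible apply Int.and | with_reducible apply Int.or | with_reducible apply Int.not | with_reducible apply Int.imp | with_reducible apply Int.iff | with_reducible apply Int.ne | with_reducible apply Int.eq | with_reducible apply Int.mem | with_reducible apply Int.subset | with_reducible apply Int.ltN | with_reducible apply Int.leN | with_reducible_and_instances apply Int.le | with_reducible_and_instances apply Int.lt | with_reducible apply Int.all | with_reducible apply Int.ex | with_reducible apply IntF.fst | with_reducible apply IntF.snd | with_reducible apply IntF.app | with_reducible apply IntF.inl | with_reducible apply IntF.inr | with_reducible_and_instances apply IntF.mul | with_reducible_and_instances apply IntF.inv | with_reducible_and_instances apply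 IntF.add | with_reducible_and_instances apply IntF.sub | with_reducible_and_instances apply IntF.neg | with_reducible_and_instances apply IntF.smul | with_reducible apply Int.fin | with_reducible apply IntF.sep | with_reducible apply IntF.lam | with_reducible apply IntF.insert | with_reducible apply IntF.singleton | with_reducible apply IntF.union | with_reducible apply IntF.iimage | with_reducible apply IntF.ite | with_reducible apply IntF.the | with_reducible apply IntF.irec | with_reducible apply IntF.succ | with_reducible apply IntF.val | with_reducible apply IntF.mk | (with_reducible refine Int.comp ?_ ?_; assumption) | (with_reducible refine Int.comp₂ ?_ ?_ ?_; assumption) | (with_reducible refine Int.comp₃ ?_ ?_ ?_ ?_; assumption) | (with_reducible refine Int.comp₄ ?_ ?_ ?_ ?_ ?_; assumption) | (with_reducible refine IntF.comp ?_ ?_; assumption) | (with_reducible refine IntF.comp₂ ?_ ?_ ?_; assumption) | (with_reducible refine IntF.comp₃ ?_ ?_ ?_ ?_; assumption) | with_reducible apply IntF.pair)))]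
  exact mem_sep (p := fun c : (Helper672.Plain.El x × Helper672.Plain.El x) × Helper672.Plain.El r => c.1.1 = c.1.2 ∧ 0 ≤ c.2) (by (repeat' (first | with_reducible exact IntF.id | with_reducible exact IntF.fst' | with_reducible exact IntF.snd' | with_reducible exact IntF.const _ | with_reducible exact Int.const _ | assumption | with_reducible apply Int.and | with_reducible apply Int.or | with_reducible apply Int.not | with_reducible apply Int.imp | with_reducible apply Int.iff | with_reducible apply Int.ne | with_reducible apply Int.eq | with_reducible apply Int.mem | with_reducible apply Int.subset | with_reducible apply Int.ltN | with_reducible apply Int.leN | with_reducible_and_instances apply Int.le | with_reducible_and_instances apply Int.lt | with_reducible apply Int.all | with_reducible apply Int.ex | with_reducible apply IntF.fst | with_reducible apply IntF.snd | with_reducible apply IntF.app | with_reducible apply IntF.inl | with_reducible apply IntF.inr | with_reducible_and_instances apply IntF.mul | with_reducible_and_instances apply IntF.inv | with_reducible_and_instances apply IntF.add | with_reducible_and_instances apply IntF.sub | with_reducible_and_instances apply IntF.neg | with_reducible_and_instances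 apply IntF.smul | with_reducible apply Int.fin | with_reducible apply IntF.sep | with_reducible apply IntF.lam | with_reducible apply IntF.insert | with_reducible apply IntF.singleton | with_reducible apply IntF.union | with_reducible apply IntF.iimage | with_reducible apply IntF.ite | with_reducible apply IntF.the | with_reducible apply IntF.irec | with_reducible apply IntF.succ | with_reducible apply IntF.val | with_reducible apply IntF.mk | (with_reducible refine Int.comp ?_ ?_; assumption) | (with_reducible refine Int.comp₂ ?_ ?_ ?_; assumption) | (with_reducible refine Int.comp₃ ?_ ?_ ?_ ?_; assumption) | (with_reducible refine Int.comp₄ ?_ ?_ ?_ ?_ ?_; assumption) | (with_reducible refine IntF.comp ?_ ?_; assumption) | (with_reducible refine IntF.comp₂ ?_ ?_ ?_; assumption) | (with_reducible refine IntF.comp₃ ?_ ?_ ?_ ?_; assumption) | with_reducible apply IntF.pair)))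

include hq hU in
theorem Ch.succ (hr : IsReals r) {n : INat N} {a b : Helper672.Plain.El x} {s : Helper672.Plain.El r} :
    Ch q U (n.succ, ((a, b), s)) ↔ ∃ (d : Helper672.Plain.El x) (s' s'' : Helper672.Plain.El r), Ch q U (n, ((a, d), s')) ∧
      Fl q U ((d, b), s'') ∧ s' + s'' ≤ s := by
  have h := int_GS hq hU hr
  have hle := int_le hr
  have ha := int_add hr
  have hF := int_Fl hq hU hr
  unfold Ch
  rw [irec_succ (by (repeat' (first | with_reducible exact IntF.id | with_reducible exact IntF.fst' | with_reducible exact IntF.snd' | with_reducible exact IntF.const _ | with_reducible exact Int.const _ | assumption | with_reducible apply Int.and | with_reducible apply Int.or | with_reducible apply Int.not | with_reducible apply Int.imp | with_reducible apply Int.iff | with_reducible apply Int.ne | with_reducible apply Int.eq | with_reducible apply Int.mem | with_reducible apply Int.subset | with_reducible apply Int.ltN | with_reducible apply Int.leN | with_reducible_and_instances apply Int.le | with_reducible_and_instances apply Int.lt | with_reducible apply Int.all | with_reducible apply Int.ex | with_reducible apply IntF.fst | with_reducible apply IntF.snd | with_reducible apply IntF.app |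 with_reducible apply IntF.inl | with_reducible apply IntF.inr | with_reducible_and_instances apply IntF.mul | with_reducible_and_instances apply IntF.inv | with_reducible_and_instances apply IntF.add | with_reducible_and_instances apply IntF.sub | with_reducible_and_instances apply IntF.neg | with_reducible_and_instances apply IntF.smul | with_reducible apply Int.fin | with_reducible apply IntF.sep | with_reducible apply IntF.lam | with_reducible apply IntF.insert | with_reducible apply IntF.singleton | with_reducible apply IntF.union | with_reducible apply IntF.iimage | with_reducible apply IntF.ite | with_reducible apply IntF.the | with_reducible apply IntF.irec | with_reducible apply IntF.succ | with_reducible apply IntF.val | with_reducible apply IntF.mk | (with_reducible refine Int.comp ?_ ?_; assumption) | (with_reducible refine Int.comp₂ ?_ ?_ ?_; assumption) | (with_reducible refine Int.comp₃ ?_ ?_ ?_ ?_; assumption) | (with_reducible refine Int.comp₄ ?_ ?_ ?_ ?_ ?_; assumption) | (with_reducible refine IntF.comp ?_ ?_; assumption) | (with_reducible refine IntF.comp₂ ?_ ?_ ?_; assumption) | (with_reducible refine IntF.comp₃ ?_ ?_ ?_ ?_; assumption) | with_reducible apply IntF.pair)))]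
  exact mem_sep (by (repeat' (first | with_reducible exact IntF.id | with_reducible exact IntF.fst' | with_reducible exact IntF.snd' | with_reducible exact IntF.const _ | with_reducible exact Int.const _ | assumption | with_reducible apply Int.and | with_reducible apply Int.or | with_reducible apply Int.not | with_reducible apply Int.imp | with_reducible apply Int.iff | with_reducible apply Int.ne | with_reducible apply Int.eq | with_reducible apply Int.mem | with_reducible apply Int.subset | with_reducible apply Int.ltN | with_reducible apply Int.leN | with_reducible_and_instances apply Int.le | with_reducible_and_instances apply Int.lt | with_reducible apply Int.all | with_reducible apply Int.ex | with_reducible apply IntF.fst | with_reducible apply IntF.snd | with_reducible apply IntF.app | with_reducible apply IntF.inl | with_reducible apply IntF.inr | with_reducible_and_instances apply IntF.mul | with_reducible_and_instances apply IntF.inv | with_reducible_and_instances apply IntF.add | with_reducible_and_instances apply IntF.sub | with_reducible_and_instances apply IntF.neg | with_reducible_and_instances apply IntF.smul | with_reducible apply Int.fin | with_reducible apply IntF.sep | with_reducible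 apply IntF.lam | with_reducible apply IntF.insert | with_reducible apply IntF.singleton | with_reducible apply IntF.union | with_reducible apply IntF.iimage | with_reducible apply IntF.ite | with_reducible apply IntF.the | with_reducible apply IntF.irec | with_reducible apply IntF.succ | with_reducible apply IntF.val | with_reducible apply IntF.mk | (with_reducible refine Int.comp ?_ ?_; assumption) | (with_reducible refine Int.comp₂ ?_ ?_ ?_; assumption) | (with_reducible refine Int.comp₃ ?_ ?_ ?_ ?_; assumption) | (with_reducible refine Int.comp₄ ?_ ?_ ?_ ?_ ?_; assumption) | (with_reducible refine IntF.comp ?_ ?_; assumption) | (with_reducible refine IntF.comp₂ ?_ ?_ ?_; assumption) | (with_reducible refine IntF.comp₃ ?_ ?_ ?_ ?_; assumption) | with_reducible apply IntF.pair)))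

include hq hU in
theorem Ch.mono (hr : IsReals r) {n : INat N} {a b : Helper672.Plain.El x} {s s' : Helper672.Plain.El r}
    (h : Ch q U (n, ((a, b), s))) (hs : s ≤ s') : Ch q U (n, ((a, b), s')) := by
  rcases INat.eq_zero_or_succ n with rfl | ⟨m, rfl⟩
  · obtain ⟨h1, h2⟩ := (Ch.zero hq hU hr).1 h
    exact (Ch.zero hq hU hr).2 ⟨h1, h2.trans hs⟩
  · obtain ⟨d, s1, s2, h1, h2, h3⟩ := (Ch.succ hq hU hr).1 h
    exact (Ch.succ hq hU hr).2 ⟨d, s1, s2, h1, h2, h3.trans hs⟩

include hq hU in
theorem Ch.nonneg (hr : IsReals r) {n : INat N} {a b : Helper672.Plain.El x} {s : Helper672.Plain.El r} :
    Ch q U (n, ((a, b), s)) → 0 ≤ s := by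
  have hC := int_Ch hq hU hr
  have hle := int_le hr
  revert a b s
  refine INat.ind (p := fun n => ∀ {a b : Helper672.Plain.El x} {s : Helper672.Plain.El r}, Ch q U (n, ((a, b), s)) → 0 ≤ s)
    (by (repeat' (first | with_reducible exact IntF.id | with_reducible exact IntF.fst' | with_reducible exact IntF.snd' | with_reducible exact IntF.const _ | with_reducible exact Int.const _ | assumption | with_reducible apply Int.and | with_reducible apply Int.or | with_reducible apply Int.not | with_reducible apply Int.imp | with_reducible apply Int.iff | with_reducible apply Int.ne | with_reducible apply Int.eq | with_reducible apply Int.mem | with_reducible apply Int.subset | with_reducible apply Int.ltN | with_reducible apply Int.leN | with_reducible_and_instances apply Int.le | with_reducible_and_instances apply Int.lt | with_reducible apply Int.all | with_reducible apply Int.ex | with_reducible apply IntF.fst | with_reducible apply IntF.snd | with_reducible apply IntF.app | with_reducible apply IntF.inl | with_reducible apply IntF.inr | with_reducible_and_instances apply IntF.mul | with_reducible_and_instances apply IntF.inv | with_reducible_and_instances apply IntF.add | with_reducible_and_instances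 apply IntF.sub | with_reducible_and_instances apply IntF.neg | with_reducible_and_instances apply IntF.smul | with_reducible apply Int.fin | with_reducible apply IntF.sep | with_reducible apply IntF.lam | with_reducible apply IntF.insert | with_reducible apply IntF.singleton | with_reducible apply IntF.union | with_reducible apply IntF.iimage | with_reducible apply IntF.ite | with_reducible apply IntF.the | with_reducible apply IntF.irec | with_reducible apply IntF.succ | with_reducible apply IntF.val | with_reducible apply IntF.mk | (with_reducible refine Int.comp ?_ ?_; assumption) | (with_reducible refine Int.comp₂ ?_ ?_ ?_; assumption) | (with_reducible refine Int.comp₃ ?_ ?_ ?_ ?_; assumption) | (with_reducible refine Int.comp₄ ?_ ?_ ?_ ?_ ?_; assumption) | (with_reducible refine IntF.comp ?_ ?_; assumption) | (with_reducible refine IntF.comp₂ ?_ ?_ ?_; assumption) | (with_reducible refine IntF.comp₃ ?_ ?_ ?_ ?_; assumption) | with_reducible apply IntF.pair))) ?_ ?_ n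
  · intro a b s h
    exact ((Ch.zero hq hU hr).1 h).2
  · intro n ih a b s h
    obtain ⟨d, s1, s2, h1, h2, h3⟩ := (Ch.succ hq hU hr).1 h
    exact (add_nonneg (ih h1) h2.1).trans h3

include hq hU in
theorem Ch.len (hr : IsReals r) {n : INat N} {a b : Helper672.Plain.El x} {s : Helper672.Plain.El r}
    (h : Ch q U (n, ((a, b), s))) : Ch q U (n.succ, ((a, b), s)) :=
  (Ch.succ hq hU hr).2 ⟨b, s, 0, h, Fl.self hU b, by rw [add_zero]⟩

include hq hU in
theorem Ch.lenz (hr : IsReals r) (n : INat N) {a : Helper672.Plain.El x} {s : Helper672.Plain.El r} (hs : 0 ≤ s) :
    Ch q U (n, ((a, a), s)) := by
  have hC := int_Ch hq hU hr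
  refine INat.ind (p := fun n => Ch q U (n, ((a, a), s))) (by (repeat' (first | with_reducible exact IntF.id | with_reducible exact IntF.fst' | with_reducible exact IntF.snd' | with_reducible exact IntF.const _ | with_reducible exact Int.const _ | assumption | with_reducible apply Int.and | with_reducible apply Int.or | with_reducible apply Int.not | with_reducible apply Int.imp | with_reducible apply Int.iff | with_reducible apply Int.ne | with_reducible apply Int.eq | with_reducible apply Int.mem | with_reducible apply Int.subset | with_reducible apply Int.ltN | with_reducible apply Int.leN | with_reducible_and_instances apply Int.le | with_reducible_and_instances apply Int.lt | with_reducible apply Int.all | with_reducible apply Int.ex | with_reducible apply IntF.fst | with_reducible apply IntF.snd | with_reducible apply IntF.app | with_reducible apply IntF.inl | with_reducible apply IntF.inr | with_reducible_and_instances apply IntF.mul | with_reducible_and_instances apply IntF.inv | with_reducible_and_instances apply IntF.add | with_reducible_and_instances apply IntF.sub | with_reducible_and_instances apply IntF.neg | with_reducible_and_instances apply IntF.smul | with_reducible apply Int.fin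 | with_reducible apply IntF.sep | with_reducible apply IntF.lam | with_reducible apply IntF.insert | with_reducible apply IntF.singleton | with_reducible apply IntF.union | with_reducible apply IntF.iimage | with_reducible apply IntF.ite | with_reducible apply IntF.the | with_reducible apply IntF.irec | with_reducible apply IntF.succ | with_reducible apply IntF.val | with_reducible apply IntF.mk | (with_reducible refine Int.comp ?_ ?_; assumption) | (with_reducible refine Int.comp₂ ?_ ?_ ?_; assumption) | (with_reducible refine Int.comp₃ ?_ ?_ ?_ ?_; assumption) | (with_reducible refine Int.comp₄ ?_ ?_ ?_ ?_ ?_; assumption) | (with_reducible refine IntF.comp ?_ ?_; assumption) | (with_reducible refine IntF.comp₂ ?_ ?_ ?_; assumption) | (with_reducible refine IntF.comp₃ ?_ ?_ ?_ ?_; assumption) | with_reducible apply IntF.pair))) ?_ ?_ n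
  · exact (Ch.zero hq hU hr).2 ⟨rfl, hs⟩
  · intro n ih
    exact ih.len hq hU hr

include hq hU in
theorem Ch.append (hr : IsReals r) {m : INat N} {a b : Helper672.Plain.El x} {s : Helper672.Plain.El r}
    (h : Ch q U (m, ((a, b), s))) (n : INat N) : ∀ (c : Helper672.Plain.El x) (s' : Helper672.Plain.El r),
    Ch q U (n, ((b, c), s')) → ∃ k, Ch q U (k, ((a, c), s + s')) := by
  have hC := int_Ch hq hU hr
  have ha := int_add hr
  refine INat.ind (p := fun n => ∀ (c : Helper672.Plain.El x) (s' : Helper672.Plain.El r),
    Ch q U (n, ((b, c), s')) → ∃ k, Ch q U (k, ((a, c), s + s'))) (by (repeat' (first | with_reducible exact IntF.id | with_reducible exact IntF.fst' | with_reducible exact IntF.snd' | with_reducible exact IntF.const _ | with_reducible exact Int.const _ | assumption | with_reducible apply Int.and | with_reducible apply Int.or | with_reducible apply Int.not | with_reducible apply Int.imp | with_reducible apply Int.iff | with_reducible apply Int.ne | with_reducible apply Int.eq | with_reducible apply Int.mem | with_reducible apply Int.subset | with_reducible apply Int.ltN | with_reducible apply Int.leN | with_reducible_and_instances apply Int.le | with_reducible_and_instances apply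 Int.lt | with_reducible apply Int.all | with_reducible apply Int.ex | with_reducible apply IntF.fst | with_reducible apply IntF.snd | with_reducible apply IntF.app | with_reducible apply IntF.inl | with_reducible apply IntF.inr | with_reducible_and_instances apply IntF.mul | with_reducible_and_instances apply IntF.inv | with_reducible_and_instances apply IntF.add | with_reducible_and_instances apply IntF.sub | with_reducible_and_instances apply IntF.neg | with_reducible_and_instances apply IntF.smul | with_reducible apply Int.fin | with_reducible apply IntF.sep | with_reducible apply IntF.lam | with_reducible apply IntF.insert | with_reducible apply IntF.singleton | with_reducible apply IntF.union | with_reducible apply IntF.iimage | with_reducible apply IntF.ite | with_reducible apply IntF.the | with_reducible apply IntF.irec | with_reducible apply IntF.succ | with_reducible apply IntF.val | with_reducible apply IntF.mk | (with_reducible refine Int.comp ?_ ?_; assumption) | (with_reducible refine Int.comp₂ ?_ ?_ ?_; assumption) | (with_reducible refine Int.comp₃ ?_ ?_ ?_ ?_; assumption) | (with_reducible refine Int.comp₄ ?_ ?_ ?_ ?_ ?_; assumption) | (with_reducible refine IntF.comp ?_ ?_; assumption)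 | (with_reducible refine IntF.comp₂ ?_ ?_ ?_; assumption) | (with_reducible refine IntF.comp₃ ?_ ?_ ?_ ?_; assumption) | with_reducible apply IntF.pair))) ?_ ?_ n
  · intro c s' h1
    obtain ⟨rfl, h2⟩ := (Ch.zero hq hU hr).1 h1
    exact ⟨m, h.mono hq hU hr (by linarith)⟩
  · intro n ih c s' h1
    obtain ⟨d, s1, s2, h2, h3, h4⟩ := (Ch.succ hq hU hr).1 h1
    obtain ⟨k, hk⟩ := ih d s1 h2
    exact ⟨k.succ, (Ch.succ hq hU hr).2 ⟨d, s + s1, s2, hk, h3, by linarith⟩⟩

include hq hU in
theorem Ch.split (hr : IsReals r) (n : INat N) : ∀ (a b : Helper672.Plain.El x) (s : Helper672.Plain.El r),
    Ch q U (n.succ, ((a, b), s)) → ∀ c : Helper672.Plain.El r, 0 ≤ c → c ≤ s → ∃ (u v : Helper672.Plain.El x) (e : Helper672.Plain.El r), c + e = s ∧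
      Ch q U (n, ((a, u), c)) ∧ Fl q U ((u, v), s) ∧ Ch q U (n, ((v, b), e)) := by
  have hC := int_Ch hq hU hr
  have ha := int_add hr
  have hle := int_le hr
  have hF := int_Fl hq hU hr
  refine INat.ind (p := fun n => ∀ (a b : Helper672.Plain.El x) (s : Helper672.Plain.El r),
    Ch q U (n.succ, ((a, b), s)) → ∀ c : Helper672.Plain.El r, 0 ≤ c → c ≤ s → ∃ (u v : Helper672.Plain.El x) (e : Helper672.Plain.El r), c + e = s ∧
      Ch q U (n, ((a, u), c)) ∧ Fl q U ((u, v), s) ∧ Ch q U (n, ((v, b), e))) (by (repeat' (first | with_reducible exact IntF.id | with_reducible exact IntF.fst' | with_reducible exact IntF.snd' | with_reducible exact IntF.const _ | with_reducible exact Int.const _ | assumption | with_reducible apply Int.and | with_reducible apply Int.or | with_reducible apply Int.not | with_reducible apply Int.imp | with_reducible apply Int.iff | with_reducible apply Int.ne | with_reducible apply Int.eq | with_reducible apply Int.mem | with_reducible apply Int.subset | with_reducible apply Int.ltN | with_reducible apply Int.leN | with_reducible_and_instances apply Int.le | with_reducible_and_instances apply Int.lt | with_reducible apply Int.all | with_reducible apply Int.ex | with_reducible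 apply IntF.fst | with_reducible apply IntF.snd | with_reducible apply IntF.app | with_reducible apply IntF.inl | with_reducible apply IntF.inr | with_reducible_and_instances apply IntF.mul | with_reducible_and_instances apply IntF.inv | with_reducible_and_instances apply IntF.add | with_reducible_and_instances apply IntF.sub | with_reducible_and_instances apply IntF.neg | with_reducible_and_instances apply IntF.smul | with_reducible apply Int.fin | with_reducible apply IntF.sep | with_reducible apply IntF.lam | with_reducible apply IntF.insert | with_reducible apply IntF.singleton | with_reducible apply IntF.union | with_reducible apply IntF.iimage | with_reducible apply IntF.ite | with_reducible apply IntF.the | with_reducible apply IntF.irec | with_reducible apply IntF.succ | with_reducible apply IntF.val | with_reducible apply IntF.mk | (with_reducible refine Int.comp ?_ ?_; assumption) | (with_reducible refine Int.comp₂ ?_ ?_ ?_; assumption) | (with_reducible refine Int.comp₃ ?_ ?_ ?_ ?_; assumption) | (with_reducible refine Int.comp₄ ?_ ?_ ?_ ?_ ?_; assumption) | (with_reducible refine IntF.comp ?_ ?_; assumption) | (with_reducible refine IntF.comp₂ ?_ ?_ ?_; assumption) | (with_reducible refine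 IntF.comp₃ ?_ ?_ ?_ ?_; assumption) | with_reducible apply IntF.pair))) ?_ ?_ n
  · intro a b s h c hc hcs
    obtain ⟨d, s1, s2, h2, h3, h4⟩ := (Ch.succ hq hU hr).1 h
    obtain ⟨rfl, h5⟩ := (Ch.zero hq hU hr).1 h2
    exact ⟨a, b, s - c, by linarith, (Ch.zero hq hU hr).2 ⟨rfl, hc⟩, h3.mono (by linarith),
      (Ch.zero hq hU hr).2 ⟨rfl, by linarith⟩⟩
  · intro n ih a b s h c hc hcs
    obtain ⟨d, s1, s2, h2, h3, h4⟩ := (Ch.succ hq hU hr).1 h
    have h2' := Ch.nonneg hq hU hr h2
    have h3' := h3.1
    replace h3' : 0 ≤ s2 := h3'
    rcases le_or_gt s1 c with h5 | h5
    · exact ⟨d, b, s - c, by linarith, h2.mono hq hU hr h5, h3.mono (by linarith),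
        Ch.lenz hq hU hr _ (by linarith)⟩
    · obtain ⟨u, v, e, h6, h7, h8, h9⟩ := ih a d s1 h2 c hc h5.le
      refine ⟨u, v, s - c, by linarith, h7.len hq hU hr, h8.mono (by linarith),
        (Ch.succ hq hU hr).2 ⟨d, e, s2, h9, h3, by linarith⟩⟩

include hq hU in
theorem Ch.frink (hr : IsReals r) (n : INat N) : ∀ (a b : Helper672.Plain.El x) (s : Helper672.Plain.El r),
    Ch q U (n, ((a, b), s)) → Fl q U ((a, b), s + s) := by
  have hC := int_Ch hq hU hr
  have ha := int_add hr
  have hF := int_Fl hq hU hr
  refine INat.ind (p := fun n => ∀ (a b : Helper672.Plain.El x) (s : Helper672.Plain.El r),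
    Ch q U (n, ((a, b), s)) → Fl q U ((a, b), s + s)) (by (repeat' (first | with_reducible exact IntF.id | with_reducible exact IntF.fst' | with_reducible exact IntF.snd' | with_reducible exact IntF.const _ | with_reducible exact Int.const _ | assumption | with_reducible apply Int.and | with_reducible apply Int.or | with_reducible apply Int.not | with_reducible apply Int.imp | with_reducible apply Int.iff | with_reducible apply Int.ne | with_reducible apply Int.eq | with_reducible apply Int.mem | with_reducible apply Int.subset | with_reducible apply Int.ltN | with_reducible apply Int.leN | with_reducible_and_instances apply Int.le | with_reducible_and_instances apply Int.lt | with_reducible apply Int.all | with_reducible apply Int.ex | with_reducible apply IntF.fst | with_reducible apply IntF.snd | with_reducible apply IntF.app | with_reducible apply IntF.inl | with_reducible apply IntF.inr | with_reducible_and_instances apply IntF.mul | with_reducible_and_instances apply IntF.inv | with_reducible_and_instances apply IntF.add | with_reducible_and_instances apply IntF.sub | with_reducible_and_instances apply IntF.neg | with_reducible_and_instances apply IntF.smul | with_reducible apply Int.fin |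 with_reducible apply IntF.sep | with_reducible apply IntF.lam | with_reducible apply IntF.insert | with_reducible apply IntF.singleton | with_reducible apply IntF.union | with_reducible apply IntF.iimage | with_reducible apply IntF.ite | with_reducible apply IntF.the | with_reducible apply IntF.irec | with_reducible apply IntF.succ | with_reducible apply IntF.val | with_reducible apply IntF.mk | (with_reducible refine Int.comp ?_ ?_; assumption) | (with_reducible refine Int.comp₂ ?_ ?_ ?_; assumption) | (with_reducible refine Int.comp₃ ?_ ?_ ?_ ?_; assumption) | (with_reducible refine Int.comp₄ ?_ ?_ ?_ ?_ ?_; assumption) | (with_reducible refine IntF.comp ?_ ?_; assumption) | (with_reducible refine IntF.comp₂ ?_ ?_ ?_; assumption) | (with_reducible refine IntF.comp₃ ?_ ?_ ?_ ?_; assumption) | with_reducible apply IntF.pair))) ?_ ?_ n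
  · intro a b s h
    obtain ⟨rfl, h5⟩ := (Ch.zero hq hU hr).1 h
    exact (Fl.self hU a).mono (by linarith)
  · intro n ih a b s h
    have h0 := Ch.nonneg hq hU hr h
    obtain ⟨u, v, e, h1, h2, h3, h4⟩ := Ch.split hq hU hr n a b s h (s / 2) (by linarith)
      (by linarith)
    exact Fl.three hq hU ((ih _ _ _ h2).mono (by linarith)) h3 ((ih _ _ _ h4).mono (by linarith))

include hq hU in
/-- The metrization lemma. -/
theorem exists_dist (hr : IsReals r) : ∃ d : Helper672.Plain.El x → Helper672.Plain.El x → Helper672.Plain.El r,
    IntF N (fun c : Helper672.Plain.El x × Helper672.Plain.El x => d c.1 c.2) ∧ (∀ a b, 0 ≤ d a b) ∧ (∀ a, d a a = 0) ∧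
      (∀ a b c, d a c ≤ d a b + d b c) ∧ (∀ n a b, U (n, (a, b)) → d a b ≤ q n) ∧
      ∀ (n : INat N) (a b : Helper672.Plain.El x), d a b < q n.succ → U (n.succ, (a, b)) := by
  have hC := int_Ch hq hU hr
  have hle := int_le hr
  let D : (Helper672.Plain.El x × Helper672.Plain.El x) → Helper672.Plain.El r → Prop := fun c z =>
    (∀ (s : Helper672.Plain.El r) (n : INat N), Ch q U (n, (c, s)) → z ≤ s) ∧
      ∀ z' : Helper672.Plain.El r, (∀ (s : Helper672.Plain.El r) (n : INat N), Ch q U (n, (c, s)) → z' ≤ s) → z' ≤ z
  have hD : Int N (fun p : (Helper672.Plain.El x × Helper672.Plain.El x) × Helper672.Plain.El r => D p.1 p.2) := by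
    change Int N (fun p : (Helper672.Plain.El x × Helper672.Plain.El x) × Helper672.Plain.El r =>
      (∀ (s : Helper672.Plain.El r) (n : INat N), Ch q U (n, (p.1, s)) → p.2 ≤ s) ∧
      ∀ z' : Helper672.Plain.El r, (∀ (s : Helper672.Plain.El r) (n : INat N), Ch q U (n, (p.1, s)) → z' ≤ s) → z' ≤ p.2)
    (repeat' (first | with_reducible exact IntF.id | with_reducible exact IntF.fst' | with_reducible exact IntF.snd' | with_reducible exact IntF.const _ | with_reducible exact Int.const _ | assumption | with_reducible apply Int.and | with_reducible apply Int.or | with_reducible apply Int.not | with_reducible apply Int.imp | with_reducible apply Int.iff | with_reducible apply Int.ne | with_reducible apply Int.eq | with_reducible apply Int.mem | with_reducible apply Int.subset | with_reducible apply Int.ltN | with_reducible apply Int.leN | with_reducible_and_instances apply Int.le | with_reducible_and_instances apply Int.lt | with_reducible apply Int.all | with_reducible apply Int.ex | with_reducible apply IntF.fst | with_reducible apply IntF.snd | with_reducible apply IntF.app | with_reducible apply IntF.inl | with_reducible apply IntF.inr | with_reducible_and_instances apply IntF.mul | with_reducible_and_instances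 apply IntF.inv | with_reducible_and_instances apply IntF.add | with_reducible_and_instances apply IntF.sub | with_reducible_and_instances apply IntF.neg | with_reducible_and_instances apply IntF.smul | with_reducible apply Int.fin | with_reducible apply IntF.sep | with_reducible apply IntF.lam | with_reducible apply IntF.insert | with_reducible apply IntF.singleton | with_reducible apply IntF.union | with_reducible apply IntF.iimage | with_reducible apply IntF.ite | with_reducible apply IntF.the | with_reducible apply IntF.irec | with_reducible apply IntF.succ | with_reducible apply IntF.val | with_reducible apply IntF.mk | (with_reducible refine Int.comp ?_ ?_; assumption) | (with_reducible refine Int.comp₂ ?_ ?_ ?_; assumption) | (with_reducible refine Int.comp₃ ?_ ?_ ?_ ?_; assumption) | (with_reducible refine Int.comp₄ ?_ ?_ ?_ ?_ ?_; assumption) | (with_reducible refine IntF.comp ?_ ?_; assumption) | (with_reducible refine IntF.comp₂ ?_ ?_ ?_; assumption) | (with_reducible refine IntF.comp₃ ?_ ?_ ?_ ?_; assumption) | with_reducible apply IntF.pair))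
  have h1 : ∀ a b : Helper672.Plain.El x, Ch q U ((0 : INat N).succ, ((a, b), 1)) := fun a b =>
    (Ch.succ hq hU hr).2 ⟨a, 0, 1, (Ch.zero hq hU hr).2 ⟨rfl, le_rfl⟩, Fl.one hq hU hr a b,
      by rw [zero_add]⟩
  have hex : ∀ c : Helper672.Plain.El x × Helper672.Plain.El x, ∃ z, D c z := by
    rintro ⟨a, b⟩
    have hS : Int N (fun z : Helper672.Plain.El r => ∀ (s : Helper672.Plain.El r) (n : INat N), Ch q U (n, ((a, b), s)) → z ≤ s) := by
      (repeat' (first | with_reducible exact IntF.id | with_reducible exact IntF.fst' | with_reducible exact IntF.snd' | with_reducible exact IntF.const _ | with_reducible exact Int.const _ | assumption | with_reducible apply Int.and | with_reducible apply Int.or | with_reducible apply Int.not | with_reducible apply Int.imp | with_reducible apply Int.iff | with_reducible apply Int.ne | with_reducible apply Int.eq | with_reducible apply Int.mem | with_reducible apply Int.subset | with_reducible apply Int.ltN | with_reducible apply Int.leN | with_reducible_and_instances apply Int.le | with_reducible_and_instances apply Int.lt | with_reducible apply Int.all | with_reducible apply Int.ex | with_reducible apply IntF.fst | with_reducible apply IntF.snd | with_reducible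 apply IntF.app | with_reducible apply IntF.inl | with_reducible apply IntF.inr | with_reducible_and_instances apply IntF.mul | with_reducible_and_instances apply IntF.inv | with_reducible_and_instances apply IntF.add | with_reducible_and_instances apply IntF.sub | with_reducible_and_instances apply IntF.neg | with_reducible_and_instances apply IntF.smul | with_reducible apply Int.fin | with_reducible apply IntF.sep | with_reducible apply IntF.lam | with_reducible apply IntF.insert | with_reducible apply IntF.singleton | with_reducible apply IntF.union | with_reducible apply IntF.iimage | with_reducible apply IntF.ite | with_reducible apply IntF.the | with_reducible apply IntF.irec | with_reducible apply IntF.succ | with_reducible apply IntF.val | with_reducible apply IntF.mk | (with_reducible refine Int.comp ?_ ?_; assumption) | (with_reducible refine Int.comp₂ ?_ ?_ ?_; assumption) | (with_reducible refine Int.comp₃ ?_ ?_ ?_ ?_; assumption) | (with_reducible refine Int.comp₄ ?_ ?_ ?_ ?_ ?_; assumption) | (with_reducible refine IntF.comp ?_ ?_; assumption) | (with_reducible refine IntF.comp₂ ?_ ?_ ?_; assumption) | (with_reducible refine IntF.comp₃ ?_ ?_ ?_ ?_; assumption) | with_reducible apply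 IntF.pair))
    obtain ⟨S, hS1⟩ := exists_set hS
    obtain ⟨z, h2, h3⟩ := hr.complete ⟨S, fun z hz => ((hS1 z).1 hz).1⟩
      ⟨(0 : Helper672.Plain.El r).1, (hS1 _).2 ⟨(0 : Helper672.Plain.El r).2, fun s n h => Ch.nonneg hq hU hr h⟩⟩
      ⟨1, fun w hw => by
        obtain ⟨_, hn⟩ := (hS1 w.1).1 hw
        exact hn 1 _ (h1 a b)⟩
    refine ⟨z, fun s n h => h3 fun w hw => ?_, fun z' hz' => h2 ((hS1 _).2 ⟨z'.2, hz'⟩)⟩
    obtain ⟨_, hn⟩ := (hS1 w.1).1 hw
    exact hn s n h
  choose d' hd' using hex
  have hdI : IntF N d' := IntF.of_unique hD hd' fun c z z' h h' =>
    le_antisymm (h'.2 z h.1) (h.2 z' h'.1)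
  refine ⟨fun a b => d' (a, b), by (repeat' (first | with_reducible exact IntF.id | with_reducible exact IntF.fst' | with_reducible exact IntF.snd' | with_reducible exact IntF.const _ | with_reducible exact Int.const _ | assumption | with_reducible apply Int.and | with_reducible apply Int.or | with_reducible apply Int.not | with_reducible apply Int.imp | with_reducible apply Int.iff | with_reducible apply Int.ne | with_reducible apply Int.eq | with_reducible apply Int.mem | with_reducible apply Int.subset | with_reducible apply Int.ltN | with_reducible apply Int.leN | with_reducible_and_instances apply Int.le | with_reducible_and_instances apply Int.lt | with_reducible apply Int.all | with_reducible apply Int.ex | with_reducible apply IntF.fst | with_reducible apply IntF.snd | with_reducible apply IntF.app | with_reducible apply IntF.inl | with_reducible apply IntF.inr | with_reducible_and_instances apply IntF.mul | with_reducible_and_instances apply IntF.inv | with_reducible_and_instances apply IntF.add | with_reducible_and_instances apply IntF.sub | with_reducible_and_instances apply IntF.neg | with_reducible_and_instances apply IntF.smul | with_reducible apply Int.fin | with_reducible apply IntF.sep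 | with_reducible apply IntF.lam | with_reducible apply IntF.insert | with_reducible apply IntF.singleton | with_reducible apply IntF.union | with_reducible apply IntF.iimage | with_reducible apply IntF.ite | with_reducible apply IntF.the | with_reducible apply IntF.irec | with_reducible apply IntF.succ | with_reducible apply IntF.val | with_reducible apply IntF.mk | (with_reducible refine Int.comp ?_ ?_; assumption) | (with_reducible refine Int.comp₂ ?_ ?_ ?_; assumption) | (with_reducible refine Int.comp₃ ?_ ?_ ?_ ?_; assumption) | (with_reducible refine Int.comp₄ ?_ ?_ ?_ ?_ ?_; assumption) | (with_reducible refine IntF.comp ?_ ?_; assumption) | (with_reducible refine IntF.comp₂ ?_ ?_ ?_; assumption) | (with_reducible refine IntF.comp₃ ?_ ?_ ?_ ?_; assumption) | with_reducible apply IntF.pair)), fun a b => (hd' (a, b)).2 0 fun s n h =>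
    Ch.nonneg hq hU hr h, fun a => ?_, fun a b c => ?_, fun n a b h => ?_, fun n a b h => ?_⟩
  · exact le_antisymm ((hd' (a, a)).1 0 0 ((Ch.zero hq hU hr).2 ⟨rfl, le_rfl⟩))
      ((hd' (a, a)).2 0 fun s n h => Ch.nonneg hq hU hr h)
  · have h2 : ∀ (s : Helper672.Plain.El r) (n : INat N), Ch q U (n, ((a, b), s)) → d' (a, c) - s ≤ d' (b, c) := by
      intro s n h
      refine (hd' (b, c)).2 _ fun s' n' h' => ?_
      obtain ⟨k, hk⟩ := Ch.append hq hU hr h n' c s' h'
      have := (hd' (a, c)).1 _ _ hk
      linarith
    have h3 := (hd' (a, b)).2 (d' (a, c) - d' (b, c)) fun s n h => by
      have := h2 s n h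
      linarith
    linarith
  · exact (hd' (a, b)).1 _ _ ((Ch.succ hq hU hr (n := 0)).2 ⟨a, 0, q n,
      (Ch.zero hq hU hr).2 ⟨rfl, le_rfl⟩, Fl.of hq hU hr h, by rw [zero_add]⟩)
  · by_contra hc
    have h2 : q n.succ ≤ d' (a, b) := (hd' (a, b)).2 _ fun s k hk => by
      have h3 := (Ch.frink hq hU hr k a b s hk).2 n hc
      have h4 := hq.succ n
      replace h3 : q n ≤ s + s := h3
      linarith
    exact absurd h (not_lt.2 h2)

end

end Pool.Agent.Q301.QM
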