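import Pool.Agent.Q301.QM.Top

/-!
# Countable products of quasi-metrizable spaces in a model of set theory
-/

set_option maxHeartbeats 1000000
set_option linter.all false

namespace Pool.Agent.Q301.QM

open FirstOrder FirstOrder.Language
open Pool.Agent.Helper672.Plain (LSet Mem IsOrdPair El Zermelo)
open Pool.Agent.H635Amen (IsReals)
open Pool.Agent.H310Cards (App)
open Pool.Agent.H310Top (IsTopology IsCompact IsHausdorff)
open Pool.Agent.H310Metric (IsMetric)
open Pool.Agent.Q301.TM (IsCountable)

universe u

section defs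

variable {M : Type u} [LSet.Structure M]

/-- The family `X`, indexed by the elements of `j`, is in the model. -/
def IsFam {j : M} (X : El j → M) : Prop :=
  ∃ g, ∀ (i : El j) (y : M), X i = y ↔ ∃ p, IsOrdPair p i.1 y ∧ Mem p g

/-- `P` is the product of the family `X`: the set of all functions `f` of the model with domain
`j` and with `f(i) ∈ X i` for all `i`. -/
def IsProduct {j : M} (P : M) (X : El j → M) : Prop :=
  ∀ f, Mem f P ↔ (∀ q, Mem q f → ∃ (i : El j) (y : M), Mem y (X i) ∧ IsOrdPair q i.1 y) ∧
    ∀ i : El j, ∃! y, App f i.1 y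

/-- `T` is the product topology on `P`: the topology generated by the sets of all `f` in `P`
with `f(i) ∈ u`, where `u` is an element of the topology `t i`. -/
def IsProductTopology {j : M} (T P : M) (t : El j → M) : Prop :=
  IsTopology T P ∧
    (∀ (i : El j) (u v : M), Mem u (t i) →
      (∀ f, Mem f v ↔ Mem f P ∧ ∃ y, App f i.1 y ∧ Mem y u) → Mem v T) ∧
    ∀ T', IsTopology T' P → (∀ (i : El j) (u v : M), Mem u (t i) →
      (∀ f, Mem f v ↔ Mem f P ∧ ∃ y, App f i.1 y ∧ Mem y u) → Mem v T') →
      ∀ u, Mem u T → Mem u T'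

variable (r : M) [Field (El r)] [LinearOrder (El r)]

/-- The topology `t` on `x` is the topology of the quasi-metric `d`: a subset `V` of `x` is in `t`
iff for every `a` in `V` some ball around `a` is contained in `V`. -/
def IsTau {r x : M} [Field (El r)] [LinearOrder (El r)] (d : El x → El x → El r) (t : M) : Prop :=
  ∀ V, Mem V t ↔ (∀ z, Mem z V → Mem z x) ∧ ∀ a : El x, Mem a.1 V → ∃ ε : El r, 0 < ε ∧
    ∀ b : El x, d a b < ε → Mem b.1 V

/-- The space `x` with the topology `t` is quasi-metrizable. -/
def QuasiMetrizable (t x : M) : Prop :=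
  ∃ d : El x → El x → El r, (IsQuasiMetric d ∧ ∀ a b, d a b = 0 → a = b) ∧ IsTau d t

/-- The space `x` with the topology `t` is metrizable. -/
def Metrizable (t x : M) : Prop := ∃ d : El x → El x → El r, IsMetric d ∧ IsTau d t

/-- Every countable product of compact metrizable spaces is metrizable. -/
def CPMCM : Prop := ∀ (j : M) (X t : El j → M) (P T : M), IsCountable j → IsFam X → IsFam t →
  (∀ i, IsCompact (t i) (X i) ∧ Metrizable r (t i) (X i)) → IsProduct P X →
  IsProductTopology T P t → Metrizable r T P

/-- Every countable product of compact Hausdorff quasi-metrizable spaces is quasi-metrizable. -/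
def CPCHQ : Prop := ∀ (j : M) (X t : El j → M) (P T : M), IsCountable j → IsFam X → IsFam t →
  (∀ i, IsCompact (t i) (X i) ∧ IsHausdorff (t i) (X i) ∧ QuasiMetrizable r (t i) (X i)) →
  IsProduct P X → IsProductTopology T P t → QuasiMetrizable r T P

end defs

section

open Pool.Agent.Helper672.ZFA (IsModel IntF Int IPow sep mem_sep)
open Pool.Agent.Helper672.ZFA.H635 (isModel_of_zermelo toL)
open Pool.Agent.H310 (instPEl)
open Pool.Agent.Q301.TM (isMap₂_iff open_of_local exists_set int_lt)

attribute [local instance] toL instPEl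

variable {M : Type u} [LSet.Structure M] [IsModel M] {r x t : M}
variable [Field (El r)] [LinearOrder (El r)] [IsStrictOrderedRing (El r)]

theorem isTopology_of_tau (hr : IsReals r) {d : El x → El x → El r} (hd : IsQuasiMetric d)
    (h : IsTau d t) : IsTopology t x := by
  refine ⟨fun u hu => ((h u).1 hu).1, (h x).2 ⟨fun z hz => hz, fun a _ => ⟨1, one_pos, fun b _ =>
    b.2⟩⟩, fun u v w hu hv hw => ?_, fun c w hc hw => ?_⟩
  · obtain ⟨h1, h2⟩ := (h u).1 hu
    obtain ⟨h3, h4⟩ := (h v).1 hv
    refine (h w).2 ⟨fun z hz => h1 z ((hw z).1 hz).1, fun a ha => ?_⟩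
    obtain ⟨ε, g1, g2⟩ := h2 a ((hw _).1 ha).1
    obtain ⟨δ, g3, g4⟩ := h4 a ((hw _).1 ha).2
    exact ⟨min ε δ, lt_min g1 g3, fun b hb => (hw _).2 ⟨g2 b (hb.trans_le (min_le_left _ _)),
      g4 b (hb.trans_le (min_le_right _ _))⟩⟩
  · refine (h w).2 ⟨fun z hz => ?_, fun a ha => ?_⟩
    · obtain ⟨u, hu, hz'⟩ := (hw z).1 hz
      exact ((h u).1 (hc u hu)).1 z hz'
    · obtain ⟨u, hu, ha'⟩ := (hw _).1 ha
      obtain ⟨ε, g1, g2⟩ := ((h u).1 (hc u hu)).2 a ha'
      exact ⟨ε, g1, fun b hb => (hw _).2 ⟨u, hu, g2 b hb⟩⟩

theorem induces_of_tau (hr : IsReals r) {d : El x → El x → El r} (hd : IsQuasiMetric d)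
    (h : IsTau d t) : Induces d t := by
  have ht := isTopology_of_tau hr hd h
  refine induces_of hr (isMap₂_iff.1 hd.graph) hd.self hd.tri ht fun u hu => ?_
  rw [h u]
  exact ⟨fun h1 => h1.2, fun h1 => ⟨hu, h1⟩⟩

theorem tau_of_induces (hr : IsReals r) {d : El x → El x → El r}
    (hd : IntF M (fun c : El x × El x => d c.1 c.2)) (hs : ∀ a, d a a = 0)
    (htri : ∀ a b c, d a c ≤ d a b + d b c) (h : Induces d t) : IsTau d t := by
  have hlt := int_lt hr
  intro V
  refine ⟨fun hV => ⟨h.1.sub V hV, induces_op hr hd htri h V hV⟩, fun ⟨h1, h2⟩ => ?_⟩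
  refine open_of_local h.1 fun z₀ hz => ?_
  obtain ⟨z, rfl⟩ : ∃ z : El x, z.1 = z₀ := ⟨⟨z₀, h1 z₀ hz⟩, rfl⟩
  obtain ⟨ε, hε, h3⟩ := h2 z hz
  obtain ⟨v, hv⟩ := exists_set (p := fun b : El x => d z b < ε) (by (repeat' (first | with_reducible apply memPE | with_reducible apply memPE' | with_reducible apply memPE'' | with_reducible apply memCode | with_reducible apply memCodeP | with_reducible apply memCode₂ | with_reducible apply eqPE | with_reducible apply eqPE' | with_reducible exact IntF.id | with_reducible exact IntF.fst' | with_reducible exact IntF.snd' | with_reducible exact IntF.const _ | with_reducible exact Int.const _ | assumption | with_reducible apply Int.and | with_reducible apply Int.or | with_reducible apply Int.not | with_reducible apply Int.imp | with_reducible apply Int.iff | with_reducible apply Int.ne | with_reducible apply Int.eq | with_reducible apply Int.mem | with_reducible apply Int.subset | with_reducible apply Int.ltN | with_reducible apply Int.leN | with_reducible_and_instances apply Int.le | with_reducible_and_instances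 apply Int.lt | with_reducible apply Int.all | with_reducible apply Int.ex | with_reducible apply IntF.fst | with_reducible apply IntF.snd | with_reducible apply IntF.app | with_reducible apply IntF.inl | with_reducible apply IntF.inr | with_reducible_and_instances apply IntF.mul | with_reducible_and_instances apply IntF.inv | with_reducible_and_instances apply IntF.add | with_reducible_and_instances apply IntF.sub | with_reducible_and_instances apply IntF.neg | with_reducible_and_instances apply IntF.smul | with_reducible apply Int.fin | with_reducible apply IntF.sep | with_reducible apply IntF.lam | with_reducible apply IntF.insert | with_reducible apply IntF.singleton | with_reducible apply IntF.union | with_reducible apply IntF.iimage | with_reducible apply IntF.ite | with_reducible apply IntF.the | with_reducible apply IntF.irec | with_reducible apply IntF.succ | with_reducible apply IntF.val | with_reducible apply IntF.mk | (with_reducible refine Int.comp ?_ ?_; assumption) | (with_reducible refine Int.comp₂ ?_ ?_ ?_; assumption)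 | (with_reducible refine Int.comp₃ ?_ ?_ ?_ ?_; assumption) | (with_reducible refine Int.comp₄ ?_ ?_ ?_ ?_ ?_; assumption) | (with_reducible refine IntF.comp ?_ ?_; assumption) | (with_reducible refine IntF.comp₂ ?_ ?_ ?_; assumption) | (with_reducible refine IntF.comp₃ ?_ ?_ ?_ ?_; assumption) | with_reducible apply IntF.pair)))
  refine ⟨v, h.2.1 v z ε hε ⟨fun w hw => ((hv w).1 hw).1, fun b => ?_⟩, (hv z.1).2 ⟨z.2, ?_⟩,
    fun w hw => ?_⟩
  · rw [hv b.1]
    exact ⟨fun ⟨_, h3⟩ => h3, fun h3 => ⟨b.2, h3⟩⟩
  · have h4 : d z z < ε := by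
      rw [hs]
      exact hε
    exact h4
  · obtain ⟨hwx, h4⟩ := (hv w).1 hw
    exact h3 ⟨w, hwx⟩ h4

theorem metrizable_of (hr : IsReals r) (hc : IsCompact t x) (hh : IsHausdorff t x)
    (h : QuasiMetrizable r t x) : Metrizable r t x := by
  obtain ⟨d, ⟨hd, -⟩, h1⟩ := h
  obtain ⟨m, hm, hi⟩ := main hr hd (induces_of_tau hr hd h1) hc hh
  exact ⟨m, hm, tau_of_induces hr (isMap₂_iff.1 hm.graph) (fun a => (hm.zero a a).2 rfl) hm.tri hi⟩

omit [IsModel M] in
theorem quasi_of (h : Metrizable r t x) : QuasiMetrizable r t x := by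
  obtain ⟨m, hm, h1⟩ := h
  refine ⟨m, ⟨⟨hm.graph, fun a b => ?_, fun a => (hm.zero a a).2 rfl, hm.tri,
    fun a b h2 _ => (hm.zero a b).1 h2⟩, fun a b h2 => (hm.zero a b).1 h2⟩, h1⟩
  have h2 := hm.tri a b a
  rw [hm.symm b a, (hm.zero a a).2 rfl] at h2
  linarith

theorem cpchq_of (hr : IsReals r) (h : CPMCM r) : CPCHQ r := by
  intro j X t P T hj hX ht h1 hP hT
  exact quasi_of (h j X t P T hj hX ht (fun i => ⟨(h1 i).1, metrizable_of hr (h1 i).1 (h1 i).2.1
    (h1 i).2.2⟩) hP hT)

end

end Pool.Agent.Q301.QM
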