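import Pool.Agent.Q301.QM.Chain
import Pool.Agent.Q301.BM.Sp

/-!
# Compact Hausdorff quasi-metric spaces
-/

set_option maxHeartbeats 1000000
set_option linter.all false
set_option synthInstance.maxSize 2000

namespace Pool.Agent.Q301.QM

open FirstOrder FirstOrder.Language
open Pool.Agent.Helper672.ZFA
open Pool.Agent.Helper672.Plain (LSet)
open Pool.Agent.Helper672.ZFA.H635 (toL plainN_ordPair plainN_graph plainN_opGraph)
open Pool.Agent.H635Amen (IsReals)
open Pool.Agent.H310Cards (IsOmega IsFinite IsFun App IsInj IsNat)
open Pool.Agent.H310Top (IsTopology IsClosed IsCompact IsHausdorff)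
open Pool.Agent.H310 (FinP finP_iff finP_le finP_lt exists_BN mem_nat nat_iff appN finite_of_finP
  mem_cp extN exists_code instPEl exists_q pr int_pr pr_inj)
open Pool.Agent.Q301.TM
open Pool.Agent.Q301.BM (TpO tp mem_tp mem_tp' isTopology_tp tpO_of mem_cp' mem_domP)
open Pool.Agent.H310Metric (IsMetric)

universe u u₁

attribute [local instance] toL instPEl

section

variable {N : Type u} [LSet.Structure N] [hM : IsModel N] {x t : N}
variable {r : N} [Field (Helper672.Plain.El r)] [LinearOrder (Helper672.Plain.El r)] [IsStrictOrderedRing (Helper672.Plain.El r)]

/-- A compact Hausdorff space with a quasi-metric. -/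
structure QC (t : N) (d : Helper672.Plain.El x → Helper672.Plain.El x → Helper672.Plain.El r) : Prop where
  int : IntF N (fun c : Helper672.Plain.El x × Helper672.Plain.El x => d c.1 c.2)
  nonneg : ∀ a b, 0 ≤ d a b
  self : ∀ a, d a a = 0
  tri : ∀ a b c, d a c ≤ d a b + d b c
  top : IsTopology t x
  op : ∀ u, Helper672.Plain.Mem u t → ∀ a : Helper672.Plain.El x, Helper672.Plain.Mem a.1 u → ∃ ε, 0 < ε ∧ ∀ b : Helper672.Plain.El x, d a b < ε → Helper672.Plain.Mem b.1 u
  ball : ∀ u a ε, 0 < ε → IsBall d u a ε → Helper672.Plain.Mem u t
  cpt : IsCompact t x
  haus : IsHausdorff t x

variable {d : Helper672.Plain.El x → Helper672.Plain.El x → Helper672.Plain.El r} (h : QC t d) {q : INat N → Helper672.Plain.El r} (hq : HS q) (hr : IsReals r)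

include h hr in
theorem exists_ball (a : Helper672.Plain.El x) (ε : Helper672.Plain.El r) (hε : 0 < ε) : ∃ u, Helper672.Plain.Mem u t ∧ Helper672.Plain.Mem a.1 u ∧
    ∀ b : Helper672.Plain.El x, Helper672.Plain.Mem b.1 u ↔ d a b < ε := by
  have hd := h.int
  have hlt := int_lt hr
  obtain ⟨u, hu⟩ := exists_set (p := fun b : Helper672.Plain.El x => d a b < ε) (by (repeat' (first | with_reducible apply memPE | with_reducible apply memPE' | with_reducible apply memPE'' | with_reducible apply memCode | with_reducible apply memCodeP | with_reducible apply memCode₂ | with_reducible apply eqPE | with_reducible apply eqPE' | with_reducible exact IntF.id | with_reducible exact IntF.fst' | with_reducible exact IntF.snd' | with_reducible exact IntF.const _ | with_reducible exact Int.const _ | assumption | with_reducible apply Int.and | with_reducible apply Int.or | with_reducible apply Int.not | with_reducible apply Int.imp | with_reducible apply Int.iff | with_reducible apply Int.ne | with_reducible apply Int.eq | with_reducible apply Int.mem | with_reducible apply Int.subset | with_reducible apply Int.ltN | with_reducible apply Int.leN | with_reducible_and_instances apply Int.le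 | with_reducible_and_instances apply Int.lt | with_reducible apply Int.all | with_reducible apply Int.ex | with_reducible apply IntF.fst | with_reducible apply IntF.snd | with_reducible apply IntF.app | with_reducible apply IntF.inl | with_reducible apply IntF.inr | with_reducible_and_instances apply IntF.mul | with_reducible_and_instances apply IntF.inv | with_reducible_and_instances apply IntF.add | with_reducible_and_instances apply IntF.sub | with_reducible_and_instances apply IntF.neg | with_reducible_and_instances apply IntF.smul | with_reducible apply Int.fin | with_reducible apply IntF.sep | with_reducible apply IntF.lam | with_reducible apply IntF.insert | with_reducible apply IntF.singleton | with_reducible apply IntF.union | with_reducible apply IntF.iimage | with_reducible apply IntF.ite | with_reducible apply IntF.the | with_reducible apply IntF.irec | with_reducible apply IntF.succ | with_reducible apply IntF.val | with_reducible apply IntF.mk | (with_reducible refine Int.comp ?_ ?_; assumption) | (with_reducible refine Int.comp₂ ?_ ?_ ?_; assumption) | (with_reducible refine Int.comp₃ ?_ ?_ ?_ ?_; assumption) | (with_reducible refine Int.comp₄ ?_ ?_ ?_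 ?_ ?_; assumption) | (with_reducible refine IntF.comp ?_ ?_; assumption) | (with_reducible refine IntF.comp₂ ?_ ?_ ?_; assumption) | (with_reducible refine IntF.comp₃ ?_ ?_ ?_ ?_; assumption) | with_reducible apply IntF.pair)))
  have h1 : ∀ b : Helper672.Plain.El x, Helper672.Plain.Mem b.1 u ↔ d a b < ε := fun b => by
    rw [hu b.1]
    exact ⟨fun ⟨_, h2⟩ => h2, fun h2 => ⟨b.2, h2⟩⟩
  exact ⟨u, h.ball u a ε hε ⟨fun z hz => ((hu z).1 hz).1, h1⟩, (h1 a).2 (by rw [h.self]; exact hε), h1⟩

include h in
theorem cluster {A : INat N × Helper672.Plain.El x → Prop} (hA : Int N A)
    (hdec : ∀ m n z, m ≤ n → A (n, z) → A (m, z)) (hne : ∀ n, ∃ z, A (n, z)) :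
    ∃ z : Helper672.Plain.El x, ∀ u, Helper672.Plain.Mem u t → Helper672.Plain.Mem z.1 u → ∀ n, ∃ z' : Helper672.Plain.El x, Helper672.Plain.Mem z'.1 u ∧ A (n, z') := by
  by_contra hc
  push Not at hc
  have hm := memI x t
  obtain ⟨c, hc1⟩ := exists_set (p := fun u : Helper672.Plain.El t => ∃ n, ∀ z' : Helper672.Plain.El x, Helper672.Plain.Mem z'.1 u.1 → ¬ A (n, z'))
    (by (repeat' (first | with_reducible apply memPE | with_reducible apply memPE' | with_reducible apply memPE'' | with_reducible apply memCode | with_reducible apply memCodeP | with_reducible apply memCode₂ | with_reducible apply eqPE | with_reducible apply eqPE' | with_reducible exact IntF.id | with_reducible exact IntF.fst' | with_reducible exact IntF.snd' | with_reducible exact IntF.const _ | with_reducible exact Int.const _ | assumption | with_reducible apply Int.and | with_reducible apply Int.or | with_reducible apply Int.not | with_reducible apply Int.imp | with_reducible apply Int.iff | with_reducible apply Int.ne | with_reducible apply Int.eq | with_reducible apply Int.mem | with_reducible apply Int.subset | with_reducible apply Int.ltN | with_reducible apply Int.leN | with_reducible_and_instances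 apply Int.le | with_reducible_and_instances apply Int.lt | with_reducible apply Int.all | with_reducible apply Int.ex | with_reducible apply IntF.fst | with_reducible apply IntF.snd | with_reducible apply IntF.app | with_reducible apply IntF.inl | with_reducible apply IntF.inr | with_reducible_and_instances apply IntF.mul | with_reducible_and_instances apply IntF.inv | with_reducible_and_instances apply IntF.add | with_reducible_and_instances apply IntF.sub | with_reducible_and_instances apply IntF.neg | with_reducible_and_instances apply IntF.smul | with_reducible apply Int.fin | with_reducible apply IntF.sep | with_reducible apply IntF.lam | with_reducible apply IntF.insert | with_reducible apply IntF.singleton | with_reducible apply IntF.union | with_reducible apply IntF.iimage | with_reducible apply IntF.ite | with_reducible apply IntF.the | with_reducible apply IntF.irec | with_reducible apply IntF.succ | with_reducible apply IntF.val | with_reducible apply IntF.mk | (with_reducible refine Int.comp ?_ ?_; assumption) | (with_reducible refine Int.comp₂ ?_ ?_ ?_; assumption) | (with_reducible refine Int.comp₃ ?_ ?_ ?_ ?_; assumption) | (with_reducible refine Int.comp₄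 ?_ ?_ ?_ ?_ ?_; assumption) | (with_reducible refine IntF.comp ?_ ?_; assumption) | (with_reducible refine IntF.comp₂ ?_ ?_ ?_; assumption) | (with_reducible refine IntF.comp₃ ?_ ?_ ?_ ?_; assumption) | with_reducible apply IntF.pair)))
  obtain ⟨c', h1, h2, h3⟩ := h.cpt c (fun u hu => ((hc1 u).1 hu).1) fun z hz => by
    obtain ⟨u, hu, h4, n, h5⟩ := hc ⟨z, hz⟩
    exact ⟨u, (hc1 u).2 ⟨hu, n, h5⟩, h4⟩
  obtain ⟨n, hn⟩ := IFin.exists_bound (r := fun (u : Helper672.Plain.El t) (n : INat N) =>
      ∀ z' : Helper672.Plain.El x, Helper672.Plain.Mem z'.1 u.1 → ¬ A (n, z')) (by (repeat' (first | with_reducible apply memPE | with_reducible apply memPE' | with_reducible apply memPE'' | with_reducible apply memCode | with_reducible apply memCodeP | with_reducible apply memCode₂ | with_reducible apply eqPE | with_reducible apply eqPE' | with_reducible exact IntF.id | with_reducible exact IntF.fst' | with_reducible exact IntF.snd' | with_reducible exact IntF.const _ | with_reducible exact Int.const _ | assumption | with_reducible apply Int.and | with_reducible apply Int.or | with_reducible apply Int.not | with_reducible apply Int.imp | with_reducible apply Int.iff | with_reducible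 apply Int.ne | with_reducible apply Int.eq | with_reducible apply Int.mem | with_reducible apply Int.subset | with_reducible apply Int.ltN | with_reducible apply Int.leN | with_reducible_and_instances apply Int.le | with_reducible_and_instances apply Int.lt | with_reducible apply Int.all | with_reducible apply Int.ex | with_reducible apply IntF.fst | with_reducible apply IntF.snd | with_reducible apply IntF.app | with_reducible apply IntF.inl | with_reducible apply IntF.inr | with_reducible_and_instances apply IntF.mul | with_reducible_and_instances apply IntF.inv | with_reducible_and_instances apply IntF.add | with_reducible_and_instances apply IntF.sub | with_reducible_and_instances apply IntF.neg | with_reducible_and_instances apply IntF.smul | with_reducible apply Int.fin | with_reducible apply IntF.sep | with_reducible apply IntF.lam | with_reducible apply IntF.insert | with_reducible apply IntF.singleton | with_reducible apply IntF.union | with_reducible apply IntF.iimage | with_reducible apply IntF.ite | with_reducible apply IntF.the | with_reducible apply IntF.irec | with_reducible apply IntF.succ | with_reducible apply IntF.val | with_reducible apply IntF.mk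 | (with_reducible refine Int.comp ?_ ?_; assumption) | (with_reducible refine Int.comp₂ ?_ ?_ ?_; assumption) | (with_reducible refine Int.comp₃ ?_ ?_ ?_ ?_; assumption) | (with_reducible refine Int.comp₄ ?_ ?_ ?_ ?_ ?_; assumption) | (with_reducible refine IntF.comp ?_ ?_; assumption) | (with_reducible refine IntF.comp₂ ?_ ?_ ?_; assumption) | (with_reducible refine IntF.comp₃ ?_ ?_ ?_ ?_; assumption) | with_reducible apply IntF.pair)))
    (fun b c => ⟨max b c, fun a h4 z' hz' h5 => h4.elim
      (fun h6 => h6 z' hz' (hdec _ _ _ (le_max_left _ _) h5))
      fun h6 => h6 z' hz' (hdec _ _ _ (le_max_right _ _) h5)⟩) ⟨0⟩ (ifin_of_finite h1 t) (by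
    intro u hu
    have h4 := (mem_sep (memI' t c')).1 hu
    exact ((hc1 _).1 (h2 _ h4)).2)
  obtain ⟨z, hz⟩ := hne n
  obtain ⟨u, hu, hzu⟩ := h3 z.1 z.2
  exact hn ⟨u, ((hc1 _).1 (h2 _ hu)).1⟩ ((mem_sep (memI' t c')).2 hu) z hzu hz

include h in
theorem reg {u : N} (hu : Helper672.Plain.Mem u t) {a : Helper672.Plain.El x} (ha : Helper672.Plain.Mem a.1 u) : ∃ v w : Helper672.Plain.El t, Helper672.Plain.Mem a.1 v.1 ∧
    (∀ z : Helper672.Plain.El x, Helper672.Plain.Mem z.1 v.1 → ¬ Helper672.Plain.Mem z.1 w.1) ∧ ∀ z : Helper672.Plain.El x, Helper672.Plain.Mem z.1 u ∨ Helper672.Plain.Mem z.1 w.1 := by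
  have ht := h.top
  have hm := memI x t
  have ha' := memI'' t a.1
  have hu' := eqI' t u
  obtain ⟨c, hc1⟩ := exists_set (p := fun w : Helper672.Plain.El t => w.1 = u ∨ ∃ v : Helper672.Plain.El t, Helper672.Plain.Mem a.1 v.1 ∧
    ∀ z : Helper672.Plain.El x, Helper672.Plain.Mem z.1 v.1 → ¬ Helper672.Plain.Mem z.1 w.1) (by (repeat' (first | with_reducible apply memPE | with_reducible apply memPE' | with_reducible apply memPE'' | with_reducible apply memCode | with_reducible apply memCodeP | with_reducible apply memCode₂ | with_reducible apply eqPE | with_reducible apply eqPE' | with_reducible exact IntF.id | with_reducible exact IntF.fst' | with_reducible exact IntF.snd' | with_reducible exact IntF.const _ | with_reducible exact Int.const _ | assumption | with_reducible apply Int.and | with_reducible apply Int.or | with_reducible apply Int.not | with_reducible apply Int.imp | with_reducible apply Int.iff | with_reducible apply Int.ne | with_reducible apply Int.eq | with_reducible apply Int.mem | with_reducible apply Int.subset | with_reducible apply Int.ltN | with_reducible apply Int.leN | with_reducible_and_instances apply Int.le | with_reducible_and_instances apply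 Int.lt | with_reducible apply Int.all | with_reducible apply Int.ex | with_reducible apply IntF.fst | with_reducible apply IntF.snd | with_reducible apply IntF.app | with_reducible apply IntF.inl | with_reducible apply IntF.inr | with_reducible_and_instances apply IntF.mul | with_reducible_and_instances apply IntF.inv | with_reducible_and_instances apply IntF.add | with_reducible_and_instances apply IntF.sub | with_reducible_and_instances apply IntF.neg | with_reducible_and_instances apply IntF.smul | with_reducible apply Int.fin | with_reducible apply IntF.sep | with_reducible apply IntF.lam | with_reducible apply IntF.insert | with_reducible apply IntF.singleton | with_reducible apply IntF.union | with_reducible apply IntF.iimage | with_reducible apply IntF.ite | with_reducible apply IntF.the | with_reducible apply IntF.irec | with_reducible apply IntF.succ | with_reducible apply IntF.val | with_reducible apply IntF.mk | (with_reducible refine Int.comp ?_ ?_; assumption) | (with_reducible refine Int.comp₂ ?_ ?_ ?_; assumption) | (with_reducible refine Int.comp₃ ?_ ?_ ?_ ?_; assumption) | (with_reducible refine Int.comp₄ ?_ ?_ ?_ ?_ ?_; assumption) | (with_reducible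 refine IntF.comp ?_ ?_; assumption) | (with_reducible refine IntF.comp₂ ?_ ?_ ?_; assumption) | (with_reducible refine IntF.comp₃ ?_ ?_ ?_ ?_; assumption) | with_reducible apply IntF.pair)))
  obtain ⟨c', h1, h2, h3⟩ := h.cpt c (fun u hu => ((hc1 u).1 hu).1) fun z hz => by
    by_cases hzu : Helper672.Plain.Mem z u
    · exact ⟨u, (hc1 u).2 ⟨hu, Or.inl rfl⟩, hzu⟩
    · obtain ⟨v, w, h4, h5, h6, h7, h8⟩ := h.haus a.1 z a.2 hz fun h9 => hzu (h9 ▸ ha)
      exact ⟨w, (hc1 w).2 ⟨h5, Or.inr ⟨⟨v, h4⟩, h6, fun z' h9 => h8 _ h9⟩⟩, h7⟩
  have hc' := memI' t c'
  have hnt : Nonempty (Helper672.Plain.El t) := ⟨⟨x, ht.univ⟩⟩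
  obtain ⟨v, hv⟩ := IFin.exists_bound (r := fun (w : Helper672.Plain.El t) (v : Helper672.Plain.El t) => Helper672.Plain.Mem a.1 v.1 ∧
      (w.1 = u ∨ ∀ z : Helper672.Plain.El x, Helper672.Plain.Mem z.1 v.1 → ¬ Helper672.Plain.Mem z.1 w.1)) (by (repeat' (first | with_reducible apply memPE | with_reducible apply memPE' | with_reducible apply memPE'' | with_reducible apply memCode | with_reducible apply memCodeP | with_reducible apply memCode₂ | with_reducible apply eqPE | with_reducible apply eqPE' | with_reducible exact IntF.id | with_reducible exact IntF.fst' | with_reducible exact IntF.snd' | with_reducible exact IntF.const _ | with_reducible exact Int.const _ | assumption | with_reducible apply Int.and | with_reducible apply Int.or | with_reducible apply Int.not | with_reducible apply Int.imp | with_reducible apply Int.iff | with_reducible apply Int.ne | with_reducible apply Int.eq | with_reducible apply Int.mem | with_reducible apply Int.subset | with_reducible apply Int.ltN | with_reducible apply Int.leN | with_reducible_and_instances apply Int.le | with_reducible_and_instances apply Int.lt | with_reducible apply Int.all | with_reducible apply Int.ex | with_reducible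 apply IntF.fst | with_reducible apply IntF.snd | with_reducible apply IntF.app | with_reducible apply IntF.inl | with_reducible apply IntF.inr | with_reducible_and_instances apply IntF.mul | with_reducible_and_instances apply IntF.inv | with_reducible_and_instances apply IntF.add | with_reducible_and_instances apply IntF.sub | with_reducible_and_instances apply IntF.neg | with_reducible_and_instances apply IntF.smul | with_reducible apply Int.fin | with_reducible apply IntF.sep | with_reducible apply IntF.lam | with_reducible apply IntF.insert | with_reducible apply IntF.singleton | with_reducible apply IntF.union | with_reducible apply IntF.iimage | with_reducible apply IntF.ite | with_reducible apply IntF.the | with_reducible apply IntF.irec | with_reducible apply IntF.succ | with_reducible apply IntF.val | with_reducible apply IntF.mk | (with_reducible refine Int.comp ?_ ?_; assumption) | (with_reducible refine Int.comp₂ ?_ ?_ ?_; assumption) | (with_reducible refine Int.comp₃ ?_ ?_ ?_ ?_; assumption) | (with_reducible refine Int.comp₄ ?_ ?_ ?_ ?_ ?_; assumption) | (with_reducible refine IntF.comp ?_ ?_; assumption) | (with_reducible refine IntF.comp₂ ?_ ?_ ?_; assumption)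 | (with_reducible refine IntF.comp₃ ?_ ?_ ?_ ?_; assumption) | with_reducible apply IntF.pair)))
    (fun b c => by
      obtain ⟨e, he⟩ := exists_trace b.1 c.1
      by_cases hb : Helper672.Plain.Mem a.1 b.1
      · by_cases hc : Helper672.Plain.Mem a.1 c.1
        · refine ⟨⟨e, ht.inter _ _ _ b.2 c.2 he⟩, fun w hw => ?_⟩
          refine ⟨(he _).2 ⟨hb, hc⟩, ?_⟩
          rcases hw with ⟨-, h4⟩ | ⟨-, h4⟩
          · exact h4.imp id fun h5 z hz => h5 z ((he _).1 hz).1
          · exact h4.imp id fun h5 z hz => h5 z ((he _).1 hz).2
        · exact ⟨b, fun w hw => hw.elim id fun h4 => absurd h4.1 hc⟩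
      · exact ⟨c, fun w hw => hw.elim (fun h4 => absurd h4.1 hb) id⟩) hnt
      (ifin_of_finite h1 t) (by
    intro w hw
    have h4 := (mem_sep hc').1 hw
    rcases ((hc1 _).1 (h2 _ h4)).2 with h5 | ⟨v, h5, h6⟩
    · exact ⟨⟨u, hu⟩, ha, Or.inl h5⟩
    · exact ⟨v, h5, Or.inr h6⟩)
  have hv' := memI' x v.1
  obtain ⟨W, hW⟩ := exists_set (p := fun z : Helper672.Plain.El x => ∃ w : Helper672.Plain.El t, Helper672.Plain.Mem w.1 c' ∧
    (∀ z' : Helper672.Plain.El x, Helper672.Plain.Mem z'.1 v.1 → ¬ Helper672.Plain.Mem z'.1 w.1) ∧ Helper672.Plain.Mem z.1 w.1) (by (repeat' (first | with_reducible apply memPE | with_reducible apply memPE' | with_reducible apply memPE'' | with_reducible apply memCode | with_reducible apply memCodeP | with_reducible apply memCode₂ | with_reducible apply eqPE | with_reducible apply eqPE' | with_reducible exact IntF.id | with_reducible exact IntF.fst' | with_reducible exact IntF.snd' | with_reducible exact IntF.const _ | with_reducible exact Int.const _ | assumption | with_reducible apply Int.and | with_reducible apply Int.or | with_reducible apply Int.not | with_reducible apply Int.imp | with_reducible apply Int.iff | with_reducible apply Int.ne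 | with_reducible apply Int.eq | with_reducible apply Int.mem | with_reducible apply Int.subset | with_reducible apply Int.ltN | with_reducible apply Int.leN | with_reducible_and_instances apply Int.le | with_reducible_and_instances apply Int.lt | with_reducible apply Int.all | with_reducible apply Int.ex | with_reducible apply IntF.fst | with_reducible apply IntF.snd | with_reducible apply IntF.app | with_reducible apply IntF.inl | with_reducible apply IntF.inr | with_reducible_and_instances apply IntF.mul | with_reducible_and_instances apply IntF.inv | with_reducible_and_instances apply IntF.add | with_reducible_and_instances apply IntF.sub | with_reducible_and_instances apply IntF.neg | with_reducible_and_instances apply IntF.smul | with_reducible apply Int.fin | with_reducible apply IntF.sep | with_reducible apply IntF.lam | with_reducible apply IntF.insert | with_reducible apply IntF.singleton | with_reducible apply IntF.union | with_reducible apply IntF.iimage | with_reducible apply IntF.ite | with_reducible apply IntF.the | with_reducible apply IntF.irec | with_reducible apply IntF.succ | with_reducible apply IntF.val | with_reducible apply IntF.mk | (with_reducible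 refine Int.comp ?_ ?_; assumption) | (with_reducible refine Int.comp₂ ?_ ?_ ?_; assumption) | (with_reducible refine Int.comp₃ ?_ ?_ ?_ ?_; assumption) | (with_reducible refine Int.comp₄ ?_ ?_ ?_ ?_ ?_; assumption) | (with_reducible refine IntF.comp ?_ ?_; assumption) | (with_reducible refine IntF.comp₂ ?_ ?_ ?_; assumption) | (with_reducible refine IntF.comp₃ ?_ ?_ ?_ ?_; assumption) | with_reducible apply IntF.pair)))
  have hWt : Helper672.Plain.Mem W t := by
    refine open_of_local ht fun z hz => ?_
    obtain ⟨hzx, w, h4, h5, h6⟩ := (hW z).1 hz
    exact ⟨w.1, w.2, h6, fun z' hz' => (hW z').2 ⟨ht.sub _ w.2 _ hz', w, h4, h5, hz'⟩⟩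
  refine ⟨v, ⟨W, hWt⟩, ?_, fun z hz hzW => ?_, fun z => ?_⟩
  · obtain ⟨w, hw, -⟩ := h3 a.1 a.2
    exact (hv ⟨w, ((hc1 _).1 (h2 _ hw)).1⟩ ((mem_sep hc').2 hw)).1
  · obtain ⟨_, w, _, h5, h6⟩ := (hW _).1 hzW
    exact h5 z hz h6
  · obtain ⟨w, hw, hzw⟩ := h3 z.1 z.2
    rcases (hv ⟨w, ((hc1 _).1 (h2 _ hw)).1⟩ ((mem_sep hc').2 hw)).2 with h4 | h4
    · replace h4 : w = u := h4
      exact Or.inl (h4 ▸ hzw)
    · exact Or.inr ((hW _).2 ⟨z.2, ⟨w, ((hc1 _).1 (h2 _ hw)).1⟩, hw, h4, hzw⟩)

/-- The entourages. -/
def VV (d : Helper672.Plain.El x → Helper672.Plain.El x → Helper672.Plain.El r) (q : INat N → Helper672.Plain.El r) (c : INat N × (Helper672.Plain.El x × Helper672.Plain.El x)) : Prop :=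
  ∃ z, d z c.2.1 < q c.1 ∧ d z c.2.2 < q c.1

include h hq hr in
theorem int_VV : Int N (VV d q) := by
  have hd := h.int
  have hqi := hq.int
  have hlt := int_lt hr
  unfold VV
  (repeat' (first | with_reducible apply memPE | with_reducible apply memPE' | with_reducible apply memPE'' | with_reducible apply memCode | with_reducible apply memCodeP | with_reducible apply memCode₂ | with_reducible apply eqPE | with_reducible apply eqPE' | with_reducible exact IntF.id | with_reducible exact IntF.fst' | with_reducible exact IntF.snd' | with_reducible exact IntF.const _ | with_reducible exact Int.const _ | assumption | with_reducible apply Int.and | with_reducible apply Int.or | with_reducible apply Int.not | with_reducible apply Int.imp | with_reducible apply Int.iff | with_reducible apply Int.ne | with_reducible apply Int.eq | with_reducible apply Int.mem | with_reducible apply Int.subset | with_reducible apply Int.ltN | with_reducible apply Int.leN | with_reducible_and_instances apply Int.le | with_reducible_and_instances apply Int.lt | with_reducible apply Int.all | with_reducible apply Int.ex | with_reducible apply IntF.fst | with_reducible apply IntF.snd | with_reducible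 apply IntF.app | with_reducible apply IntF.inl | with_reducible apply IntF.inr | with_reducible_and_instances apply IntF.mul | with_reducible_and_instances apply IntF.inv | with_reducible_and_instances apply IntF.add | with_reducible_and_instances apply IntF.sub | with_reducible_and_instances apply IntF.neg | with_reducible_and_instances apply IntF.smul | with_reducible apply Int.fin | with_reducible apply IntF.sep | with_reducible apply IntF.lam | with_reducible apply IntF.insert | with_reducible apply IntF.singleton | with_reducible apply IntF.union | with_reducible apply IntF.iimage | with_reducible apply IntF.ite | with_reducible apply IntF.the | with_reducible apply IntF.irec | with_reducible apply IntF.succ | with_reducible apply IntF.val | with_reducible apply IntF.mk | (with_reducible refine Int.comp ?_ ?_; assumption) | (with_reducible refine Int.comp₂ ?_ ?_ ?_; assumption) | (with_reducible refine Int.comp₃ ?_ ?_ ?_ ?_; assumption) | (with_reducible refine Int.comp₄ ?_ ?_ ?_ ?_ ?_; assumption) | (with_reducible refine IntF.comp ?_ ?_; assumption) | (with_reducible refine IntF.comp₂ ?_ ?_ ?_; assumption) | (with_reducible refine IntF.comp₃ ?_ ?_ ?_ ?_; assumption)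 | with_reducible apply IntF.pair))

include h hq in
theorem VV.refl (n : INat N) (a : Helper672.Plain.El x) : VV d q (n, (a, a)) :=
  ⟨a, by rw [h.self]; exact hq.pos n, by rw [h.self]; exact hq.pos n⟩

omit [IsStrictOrderedRing (Helper672.Plain.El r)] in
theorem VV.symm {n : INat N} {a b : Helper672.Plain.El x} (h : VV d q (n, (a, b))) : VV d q (n, (b, a)) := by
  obtain ⟨z, h1, h2⟩ := h
  exact ⟨z, h2, h1⟩

include hq hr in
theorem VV.mono {m n : INat N} {a b : Helper672.Plain.El x} (hmn : m ≤ n) (h : VV d q (n, (a, b))) :
    VV d q (m, (a, b)) := by
  obtain ⟨z, h1, h2⟩ := h
  exact ⟨z, h1.trans_le (hq.anti hr hmn), h2.trans_le (hq.anti hr hmn)⟩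

include h hq hr in
/-- The entourages are small. -/
theorem small {O : Helper672.Plain.El x × Helper672.Plain.El x → Prop} (hO : Int N O) (h1 : ∀ a : Helper672.Plain.El x, ∃ u, Helper672.Plain.Mem u t ∧ Helper672.Plain.Mem a.1 u ∧
    ∀ b c : Helper672.Plain.El x, Helper672.Plain.Mem b.1 u → Helper672.Plain.Mem c.1 u → O (b, c)) : ∃ k, ∀ a b, VV d q (k, (a, b)) → O (a, b) := by
  by_contra hc
  push Not at hc
  have hd := h.int
  have hqi := hq.int
  have hlt := int_lt hr
  obtain ⟨z, hz⟩ := cluster h (A := fun c => ∃ a b : Helper672.Plain.El x, d c.2 a < q c.1 ∧ d c.2 b < q c.1 ∧
    ¬ O (a, b)) (by (repeat' (first | with_reducible apply memPE | with_reducible apply memPE' | with_reducible apply memPE'' | with_reducible apply memCode | with_reducible apply memCodeP | with_reducible apply memCode₂ | with_reducible apply eqPE | with_reducible apply eqPE' | with_reducible exact IntF.id | with_reducible exact IntF.fst' | with_reducible exact IntF.snd' | with_reducible exact IntF.const _ | with_reducible exact Int.const _ | assumption | with_reducible apply Int.and | with_reducible apply Int.or | with_reducible apply Int.not | with_reducible apply Int.imp | with_reducible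 apply Int.iff | with_reducible apply Int.ne | with_reducible apply Int.eq | with_reducible apply Int.mem | with_reducible apply Int.subset | with_reducible apply Int.ltN | with_reducible apply Int.leN | with_reducible_and_instances apply Int.le | with_reducible_and_instances apply Int.lt | with_reducible apply Int.all | with_reducible apply Int.ex | with_reducible apply IntF.fst | with_reducible apply IntF.snd | with_reducible apply IntF.app | with_reducible apply IntF.inl | with_reducible apply IntF.inr | with_reducible_and_instances apply IntF.mul | with_reducible_and_instances apply IntF.inv | with_reducible_and_instances apply IntF.add | with_reducible_and_instances apply IntF.sub | with_reducible_and_instances apply IntF.neg | with_reducible_and_instances apply IntF.smul | with_reducible apply Int.fin | with_reducible apply IntF.sep | with_reducible apply IntF.lam | with_reducible apply IntF.insert | with_reducible apply IntF.singleton | with_reducible apply IntF.union | with_reducible apply IntF.iimage | with_reducible apply IntF.ite | with_reducible apply IntF.the | with_reducible apply IntF.irec | with_reducible apply IntF.succ | with_reducible apply IntF.val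 | with_reducible apply IntF.mk | (with_reducible refine Int.comp ?_ ?_; assumption) | (with_reducible refine Int.comp₂ ?_ ?_ ?_; assumption) | (with_reducible refine Int.comp₃ ?_ ?_ ?_ ?_; assumption) | (with_reducible refine Int.comp₄ ?_ ?_ ?_ ?_ ?_; assumption) | (with_reducible refine IntF.comp ?_ ?_; assumption) | (with_reducible refine IntF.comp₂ ?_ ?_ ?_; assumption) | (with_reducible refine IntF.comp₃ ?_ ?_ ?_ ?_; assumption) | with_reducible apply IntF.pair))) (fun m n z hmn ⟨a, b, g1, g2, g3⟩ =>
      ⟨a, b, g1.trans_le (hq.anti hr hmn), g2.trans_le (hq.anti hr hmn), g3⟩) (fun n => by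
    obtain ⟨a, b, ⟨z, g1, g2⟩, g3⟩ := hc n
    exact ⟨z, a, b, g1, g2, g3⟩)
  obtain ⟨u, hu, hzu, h2⟩ := h1 z
  obtain ⟨ε, hε, h3⟩ := h.op u hu z hzu
  obtain ⟨k, hk⟩ := hq.lim ε hε
  obtain ⟨v, hv, hzv, h4⟩ := exists_ball h hr z (q k.succ) (hq.pos _)
  obtain ⟨z', hz', a, b, g1, g2, g3⟩ := hz v hv hzv k.succ
  have h5 := (h4 z').1 hz'
  have h6 := hq.succ k
  replace g1 : d z' a < q k.succ := g1
  replace g2 : d z' b < q k.succ := g2
  refine g3 (h2 a b (h3 a ?_) (h3 b ?_))
  · have := h.tri z z' a
    linarith
  · have := h.tri z z' b
    linarith

include h hq hr in
theorem shrink {u : N} (hu : Helper672.Plain.Mem u t) {a : Helper672.Plain.El x} (ha : Helper672.Plain.Mem a.1 u) : ∃ v : Helper672.Plain.El t, Helper672.Plain.Mem a.1 v.1 ∧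
    ∃ k, ∀ b c : Helper672.Plain.El x, Helper672.Plain.Mem b.1 v.1 → VV d q (k, (b, c)) → Helper672.Plain.Mem c.1 u := by
  obtain ⟨v, w, h1, h2, h3⟩ := reg h hu ha
  have hv := memI' x v.1
  have hu' := memI' x u
  obtain ⟨k, hk⟩ := small h hq hr (O := fun c : Helper672.Plain.El x × Helper672.Plain.El x => Helper672.Plain.Mem c.1.1 v.1 → Helper672.Plain.Mem c.2.1 u)
    (by (repeat' (first | with_reducible apply memPE | with_reducible apply memPE' | with_reducible apply memPE'' | with_reducible apply memCode | with_reducible apply memCodeP | with_reducible apply memCode₂ | with_reducible apply eqPE | with_reducible apply eqPE' | with_reducible exact IntF.id | with_reducible exact IntF.fst' | with_reducible exact IntF.snd' | with_reducible exact IntF.const _ | with_reducible exact Int.const _ | assumption | with_reducible apply Int.and | with_reducible apply Int.or | with_reducible apply Int.not | with_reducible apply Int.imp | with_reducible apply Int.iff | with_reducible apply Int.ne | with_reducible apply Int.eq | with_reducible apply Int.mem | with_reducible apply Int.subset | with_reducible apply Int.ltN | with_reducible apply Int.leN | with_reducible_and_instances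 apply Int.le | with_reducible_and_instances apply Int.lt | with_reducible apply Int.all | with_reducible apply Int.ex | with_reducible apply IntF.fst | with_reducible apply IntF.snd | with_reducible apply IntF.app | with_reducible apply IntF.inl | with_reducible apply IntF.inr | with_reducible_and_instances apply IntF.mul | with_reducible_and_instances apply IntF.inv | with_reducible_and_instances apply IntF.add | with_reducible_and_instances apply IntF.sub | with_reducible_and_instances apply IntF.neg | with_reducible_and_instances apply IntF.smul | with_reducible apply Int.fin | with_reducible apply IntF.sep | with_reducible apply IntF.lam | with_reducible apply IntF.insert | with_reducible apply IntF.singleton | with_reducible apply IntF.union | with_reducible apply IntF.iimage | with_reducible apply IntF.ite | with_reducible apply IntF.the | with_reducible apply IntF.irec | with_reducible apply IntF.succ | with_reducible apply IntF.val | with_reducible apply IntF.mk | (with_reducible refine Int.comp ?_ ?_; assumption) | (with_reducible refine Int.comp₂ ?_ ?_ ?_; assumption) | (with_reducible refine Int.comp₃ ?_ ?_ ?_ ?_; assumption) | (with_reducible refine Int.comp₄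 ?_ ?_ ?_ ?_ ?_; assumption) | (with_reducible refine IntF.comp ?_ ?_; assumption) | (with_reducible refine IntF.comp₂ ?_ ?_ ?_; assumption) | (with_reducible refine IntF.comp₃ ?_ ?_ ?_ ?_; assumption) | with_reducible apply IntF.pair))) fun b => by
      rcases h3 b with h4 | h4
      · exact ⟨u, hu, h4, fun c e hc he _ => he⟩
      · exact ⟨w.1, w.2, h4, fun c e hc he h5 => absurd hc (h2 c h5)⟩
  exact ⟨v, h1, k, fun b c hb hbc => hk b c hbc hb⟩

include h hq hr in
theorem comp (n : INat N) : ∃ k, ∀ a b c e, VV d q (k, (a, b)) → VV d q (k, (b, c)) →
    VV d q (k, (c, e)) → VV d q (n, (a, e)) := by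
  by_contra hc
  push Not at hc
  have hV := int_VV h hq hr
  obtain ⟨z, hz⟩ := cluster h (A := fun p => ∃ b c e : Helper672.Plain.El x, VV d q (p.1, (p.2, b)) ∧
    VV d q (p.1, (b, c)) ∧ VV d q (p.1, (c, e)) ∧ ¬ VV d q (n, (p.2, e))) (by (repeat' (first | with_reducible apply memPE | with_reducible apply memPE' | with_reducible apply memPE'' | with_reducible apply memCode | with_reducible apply memCodeP | with_reducible apply memCode₂ | with_reducible apply eqPE | with_reducible apply eqPE' | with_reducible exact IntF.id | with_reducible exact IntF.fst' | with_reducible exact IntF.snd' | with_reducible exact IntF.const _ | with_reducible exact Int.const _ | assumption | with_reducible apply Int.and | with_reducible apply Int.or | with_reducible apply Int.not | with_reducible apply Int.imp | with_reducible apply Int.iff | with_reducible apply Int.ne | with_reducible apply Int.eq | with_reducible apply Int.mem | with_reducible apply Int.subset | with_reducible apply Int.ltN | with_reducible apply Int.leN | with_reducible_and_instances apply Int.le | with_reducible_and_instances apply Int.lt | with_reducible apply Int.all | with_reducible apply Int.ex | with_reducible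 apply IntF.fst | with_reducible apply IntF.snd | with_reducible apply IntF.app | with_reducible apply IntF.inl | with_reducible apply IntF.inr | with_reducible_and_instances apply IntF.mul | with_reducible_and_instances apply IntF.inv | with_reducible_and_instances apply IntF.add | with_reducible_and_instances apply IntF.sub | with_reducible_and_instances apply IntF.neg | with_reducible_and_instances apply IntF.smul | with_reducible apply Int.fin | with_reducible apply IntF.sep | with_reducible apply IntF.lam | with_reducible apply IntF.insert | with_reducible apply IntF.singleton | with_reducible apply IntF.union | with_reducible apply IntF.iimage | with_reducible apply IntF.ite | with_reducible apply IntF.the | with_reducible apply IntF.irec | with_reducible apply IntF.succ | with_reducible apply IntF.val | with_reducible apply IntF.mk | (with_reducible refine Int.comp ?_ ?_; assumption) | (with_reducible refine Int.comp₂ ?_ ?_ ?_; assumption) | (with_reducible refine Int.comp₃ ?_ ?_ ?_ ?_; assumption) | (with_reducible refine Int.comp₄ ?_ ?_ ?_ ?_ ?_; assumption) | (with_reducible refine IntF.comp ?_ ?_; assumption) | (with_reducible refine IntF.comp₂ ?_ ?_ ?_; assumption)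 | (with_reducible refine IntF.comp₃ ?_ ?_ ?_ ?_; assumption) | with_reducible apply IntF.pair)))
    (fun m k z hmk ⟨b, c, e, g1, g2, g3, g4⟩ => ⟨b, c, e, g1.mono hq hr hmk, g2.mono hq hr hmk,
      g3.mono hq hr hmk, g4⟩) (fun k => by
    obtain ⟨a, b, c, e, g1, g2, g3, g4⟩ := hc k
    exact ⟨a, b, c, e, g1, g2, g3, g4⟩)
  obtain ⟨u₃, a3, b3, c3⟩ := exists_ball h hr z (q n) (hq.pos _)
  obtain ⟨u₂, b2, k₂, c2⟩ := shrink h hq hr a3 b3
  obtain ⟨u₁, b1, k₁, c1⟩ := shrink h hq hr u₂.2 b2
  obtain ⟨u₀, b0, k₀, c0⟩ := shrink h hq hr u₁.2 b1
  obtain ⟨z', hz', b, c, e, g1, g2, g3, g4⟩ := hz u₀.1 u₀.2 b0 (max (max k₀ k₁) k₂)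
  have e0 : k₀ ≤ max (max k₀ k₁) k₂ := (le_max_left _ _).trans (le_max_left _ _)
  have e1 : k₁ ≤ max (max k₀ k₁) k₂ := (le_max_right _ _).trans (le_max_left _ _)
  have e2 : k₂ ≤ max (max k₀ k₁) k₂ := le_max_right _ _
  have f1 : Helper672.Plain.Mem b.1 u₁.1 := c0 z' b hz' (g1.mono hq hr e0)
  have f2 : Helper672.Plain.Mem c.1 u₂.1 := c1 b c f1 (g2.mono hq hr e1)
  have f3 : Helper672.Plain.Mem e.1 u₃ := c2 c e f2 (g3.mono hq hr e2)
  have f0 : Helper672.Plain.Mem z'.1 u₃ := by
    have f4 : Helper672.Plain.Mem z'.1 u₁.1 := c0 z' z' hz' (VV.refl h hq _ _)
    have f5 : Helper672.Plain.Mem z'.1 u₂.1 := c1 z' z' f4 (VV.refl h hq _ _)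
    exact c2 z' z' f5 (VV.refl h hq _ _)
  exact g4 ⟨z, (c3 _).1 f0, (c3 _).1 f3⟩

include h hq hr in
theorem exists_kappa : ∃ κ : INat N → INat N, IntF N κ ∧ (∀ n, n ≤ κ n) ∧ ∀ n a b c e,
    VV d q (κ n.succ, (a, b)) → VV d q (κ n.succ, (b, c)) → VV d q (κ n.succ, (c, e)) →
      VV d q (κ n, (a, e)) := by
  have hV := int_VV h hq hr
  let K : INat N → INat N → Prop := fun n k => n < k ∧ ∀ a b c e, VV d q (k, (a, b)) →
    VV d q (k, (b, c)) → VV d q (k, (c, e)) → VV d q (n, (a, e))
  have hK : Int N (fun p : INat N × INat N => K p.1 p.2) := by
    change Int N (fun p : INat N × INat N => p.1 < p.2 ∧ ∀ a b c e, VV d q (p.2, (a, b)) →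
      VV d q (p.2, (b, c)) → VV d q (p.2, (c, e)) → VV d q (p.1, (a, e)))
    (repeat' (first | with_reducible apply memPE | with_reducible apply memPE' | with_reducible apply memPE'' | with_reducible apply memCode | with_reducible apply memCodeP | with_reducible apply memCode₂ | with_reducible apply eqPE | with_reducible apply eqPE' | with_reducible exact IntF.id | with_reducible exact IntF.fst' | with_reducible exact IntF.snd' | with_reducible exact IntF.const _ | with_reducible exact Int.const _ | assumption | with_reducible apply Int.and | with_reducible apply Int.or | with_reducible apply Int.not | with_reducible apply Int.imp | with_reducible apply Int.iff | with_reducible apply Int.ne | with_reducible apply Int.eq | with_reducible apply Int.mem | with_reducible apply Int.subset | with_reducible apply Int.ltN | with_reducible apply Int.leN | with_reducible_and_instances apply Int.le | with_reducible_and_instances apply Int.lt | with_reducible apply Int.all | with_reducible apply Int.ex | with_reducible apply IntF.fst | with_reducible apply IntF.snd | with_reducible apply IntF.app | with_reducible apply IntF.inl | with_reducible apply IntF.inr | with_reducible_and_instances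 apply IntF.mul | with_reducible_and_instances apply IntF.inv | with_reducible_and_instances apply IntF.add | with_reducible_and_instances apply IntF.sub | with_reducible_and_instances apply IntF.neg | with_reducible_and_instances apply IntF.smul | with_reducible apply Int.fin | with_reducible apply IntF.sep | with_reducible apply IntF.lam | with_reducible apply IntF.insert | with_reducible apply IntF.singleton | with_reducible apply IntF.union | with_reducible apply IntF.iimage | with_reducible apply IntF.ite | with_reducible apply IntF.the | with_reducible apply IntF.irec | with_reducible apply IntF.succ | with_reducible apply IntF.val | with_reducible apply IntF.mk | (with_reducible refine Int.comp ?_ ?_; assumption) | (with_reducible refine Int.comp₂ ?_ ?_ ?_; assumption) | (with_reducible refine Int.comp₃ ?_ ?_ ?_ ?_; assumption) | (with_reducible refine Int.comp₄ ?_ ?_ ?_ ?_ ?_; assumption) | (with_reducible refine IntF.comp ?_ ?_; assumption) | (with_reducible refine IntF.comp₂ ?_ ?_ ?_; assumption) | (with_reducible refine IntF.comp₃ ?_ ?_ ?_ ?_; assumption) | with_reducible apply IntF.pair))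
  have h1 : ∀ n, ∃ k, K n k ∧ ∀ k', K n k' → k ≤ k' := by
    intro n
    obtain ⟨k, hk⟩ := comp h hq hr n
    refine INat.exists_least (p := fun k => K n k) (by (repeat' (first | with_reducible apply memPE | with_reducible apply memPE' | with_reducible apply memPE'' | with_reducible apply memCode | with_reducible apply memCodeP | with_reducible apply memCode₂ | with_reducible apply eqPE | with_reducible apply eqPE' | with_reducible exact IntF.id | with_reducible exact IntF.fst' | with_reducible exact IntF.snd' | with_reducible exact IntF.const _ | with_reducible exact Int.const _ | assumption | with_reducible apply Int.and | with_reducible apply Int.or | with_reducible apply Int.not | with_reducible apply Int.imp | with_reducible apply Int.iff | with_reducible apply Int.ne | with_reducible apply Int.eq | with_reducible apply Int.mem | with_reducible apply Int.subset | with_reducible apply Int.ltN | with_reducible apply Int.leN | with_reducible_and_instances apply Int.le | with_reducible_and_instances apply Int.lt | with_reducible apply Int.all | with_reducible apply Int.ex | with_reducible apply IntF.fst | with_reducible apply IntF.snd | with_reducible apply IntF.app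 | with_reducible apply IntF.inl | with_reducible apply IntF.inr | with_reducible_and_instances apply IntF.mul | with_reducible_and_instances apply IntF.inv | with_reducible_and_instances apply IntF.add | with_reducible_and_instances apply IntF.sub | with_reducible_and_instances apply IntF.neg | with_reducible_and_instances apply IntF.smul | with_reducible apply Int.fin | with_reducible apply IntF.sep | with_reducible apply IntF.lam | with_reducible apply IntF.insert | with_reducible apply IntF.singleton | with_reducible apply IntF.union | with_reducible apply IntF.iimage | with_reducible apply IntF.ite | with_reducible apply IntF.the | with_reducible apply IntF.irec | with_reducible apply IntF.succ | with_reducible apply IntF.val | with_reducible apply IntF.mk | (with_reducible refine Int.comp ?_ ?_; assumption) | (with_reducible refine Int.comp₂ ?_ ?_ ?_; assumption) | (with_reducible refine Int.comp₃ ?_ ?_ ?_ ?_; assumption) | (with_reducible refine Int.comp₄ ?_ ?_ ?_ ?_ ?_; assumption) | (with_reducible refine IntF.comp ?_ ?_; assumption) | (with_reducible refine IntF.comp₂ ?_ ?_ ?_; assumption) | (with_reducible refine IntF.comp₃ ?_ ?_ ?_ ?_; assumption) | with_reducible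 apply IntF.pair))) ⟨max k n.succ, ?_, ?_⟩
    · exact (INat.lt_succ_self n).trans_le (le_max_right _ _)
    · intro a b c e g1 g2 g3
      exact hk a b c e (g1.mono hq hr (le_max_left _ _)) (g2.mono hq hr (le_max_left _ _))
        (g3.mono hq hr (le_max_left _ _))
  choose g hg hgl using h1
  have hgI : IntF N g := IntF.of_unique (p := fun n k => K n k ∧ ∀ k', K n k' → k ≤ k')
    (by (repeat' (first | with_reducible apply memPE | with_reducible apply memPE' | with_reducible apply memPE'' | with_reducible apply memCode | with_reducible apply memCodeP | with_reducible apply memCode₂ | with_reducible apply eqPE | with_reducible apply eqPE' | with_reducible exact IntF.id | with_reducible exact IntF.fst' | with_reducible exact IntF.snd' | with_reducible exact IntF.const _ | with_reducible exact Int.const _ | assumption | with_reducible apply Int.and | with_reducible apply Int.or | with_reducible apply Int.not | with_reducible apply Int.imp | with_reducible apply Int.iff | with_reducible apply Int.ne | with_reducible apply Int.eq | with_reducible apply Int.mem | with_reducible apply Int.subset | with_reducible apply Int.ltN | with_reducible apply Int.leN | with_reducible_and_instances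 apply Int.le | with_reducible_and_instances apply Int.lt | with_reducible apply Int.all | with_reducible apply Int.ex | with_reducible apply IntF.fst | with_reducible apply IntF.snd | with_reducible apply IntF.app | with_reducible apply IntF.inl | with_reducible apply IntF.inr | with_reducible_and_instances apply IntF.mul | with_reducible_and_instances apply IntF.inv | with_reducible_and_instances apply IntF.add | with_reducible_and_instances apply IntF.sub | with_reducible_and_instances apply IntF.neg | with_reducible_and_instances apply IntF.smul | with_reducible apply Int.fin | with_reducible apply IntF.sep | with_reducible apply IntF.lam | with_reducible apply IntF.insert | with_reducible apply IntF.singleton | with_reducible apply IntF.union | with_reducible apply IntF.iimage | with_reducible apply IntF.ite | with_reducible apply IntF.the | with_reducible apply IntF.irec | with_reducible apply IntF.succ | with_reducible apply IntF.val | with_reducible apply IntF.mk | (with_reducible refine Int.comp ?_ ?_; assumption) | (with_reducible refine Int.comp₂ ?_ ?_ ?_; assumption) | (with_reducible refine Int.comp₃ ?_ ?_ ?_ ?_; assumption) | (with_reducible refine Int.comp₄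 ?_ ?_ ?_ ?_ ?_; assumption) | (with_reducible refine IntF.comp ?_ ?_; assumption) | (with_reducible refine IntF.comp₂ ?_ ?_ ?_; assumption) | (with_reducible refine IntF.comp₃ ?_ ?_ ?_ ?_; assumption) | with_reducible apply IntF.pair))) (fun n => ⟨hg n, hgl n⟩) fun n k k' h1 h2 => le_antisymm (h1.2 _ h2.1) (h2.2 _ h1.1)
  have hκ : IntF N (fun n : INat N => irec (0 : INat N) (fun _ k => g k) n) := by (repeat' (first | with_reducible apply memPE | with_reducible apply memPE' | with_reducible apply memPE'' | with_reducible apply memCode | with_reducible apply memCodeP | with_reducible apply memCode₂ | with_reducible apply eqPE | with_reducible apply eqPE' | with_reducible exact IntF.id | with_reducible exact IntF.fst' | with_reducible exact IntF.snd' | with_reducible exact IntF.const _ | with_reducible exact Int.const _ | assumption | with_reducible apply Int.and | with_reducible apply Int.or | with_reducible apply Int.not | with_reducible apply Int.imp | with_reducible apply Int.iff | with_reducible apply Int.ne | with_reducible apply Int.eq | with_reducible apply Int.mem | with_reducible apply Int.subset | with_reducible apply Int.ltN | with_reducible apply Int.leN |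 with_reducible_and_instances apply Int.le | with_reducible_and_instances apply Int.lt | with_reducible apply Int.all | with_reducible apply Int.ex | with_reducible apply IntF.fst | with_reducible apply IntF.snd | with_reducible apply IntF.app | with_reducible apply IntF.inl | with_reducible apply IntF.inr | with_reducible_and_instances apply IntF.mul | with_reducible_and_instances apply IntF.inv | with_reducible_and_instances apply IntF.add | with_reducible_and_instances apply IntF.sub | with_reducible_and_instances apply IntF.neg | with_reducible_and_instances apply IntF.smul | with_reducible apply Int.fin | with_reducible apply IntF.sep | with_reducible apply IntF.lam | with_reducible apply IntF.insert | with_reducible apply IntF.singleton | with_reducible apply IntF.union | with_reducible apply IntF.iimage | with_reducible apply IntF.ite | with_reducible apply IntF.the | with_reducible apply IntF.irec | with_reducible apply IntF.succ | with_reducible apply IntF.val | with_reducible apply IntF.mk | (with_reducible refine Int.comp ?_ ?_; assumption) | (with_reducible refine Int.comp₂ ?_ ?_ ?_; assumption) | (with_reducible refine Int.comp₃ ?_ ?_ ?_ ?_; assumption) |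 (with_reducible refine Int.comp₄ ?_ ?_ ?_ ?_ ?_; assumption) | (with_reducible refine IntF.comp ?_ ?_; assumption) | (with_reducible refine IntF.comp₂ ?_ ?_ ?_; assumption) | (with_reducible refine IntF.comp₃ ?_ ?_ ?_ ?_; assumption) | with_reducible apply IntF.pair))
  have hs : ∀ n : INat N, irec (0 : INat N) (fun _ k => g k) n.succ =
      g (irec (0 : INat N) (fun _ k => g k) n) := fun n => irec_succ (by (repeat' (first | with_reducible apply memPE | with_reducible apply memPE' | with_reducible apply memPE'' | with_reducible apply memCode | with_reducible apply memCodeP | with_reducible apply memCode₂ | with_reducible apply eqPE | with_reducible apply eqPE' | with_reducible exact IntF.id | with_reducible exact IntF.fst' | with_reducible exact IntF.snd' | with_reducible exact IntF.const _ | with_reducible exact Int.const _ | assumption | with_reducible apply Int.and | with_reducible apply Int.or | with_reducible apply Int.not | with_reducible apply Int.imp | with_reducible apply Int.iff | with_reducible apply Int.ne | with_reducible apply Int.eq | with_reducible apply Int.mem | with_reducible apply Int.subset | with_reducible apply Int.ltN | with_reducible apply Int.leN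 | with_reducible_and_instances apply Int.le | with_reducible_and_instances apply Int.lt | with_reducible apply Int.all | with_reducible apply Int.ex | with_reducible apply IntF.fst | with_reducible apply IntF.snd | with_reducible apply IntF.app | with_reducible apply IntF.inl | with_reducible apply IntF.inr | with_reducible_and_instances apply IntF.mul | with_reducible_and_instances apply IntF.inv | with_reducible_and_instances apply IntF.add | with_reducible_and_instances apply IntF.sub | with_reducible_and_instances apply IntF.neg | with_reducible_and_instances apply IntF.smul | with_reducible apply Int.fin | with_reducible apply IntF.sep | with_reducible apply IntF.lam | with_reducible apply IntF.insert | with_reducible apply IntF.singleton | with_reducible apply IntF.union | with_reducible apply IntF.iimage | with_reducible apply IntF.ite | with_reducible apply IntF.the | with_reducible apply IntF.irec | with_reducible apply IntF.succ | with_reducible apply IntF.val | with_reducible apply IntF.mk | (with_reducible refine Int.comp ?_ ?_; assumption) | (with_reducible refine Int.comp₂ ?_ ?_ ?_; assumption) | (with_reducible refine Int.comp₃ ?_ ?_ ?_ ?_; assumption)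 | (with_reducible refine Int.comp₄ ?_ ?_ ?_ ?_ ?_; assumption) | (with_reducible refine IntF.comp ?_ ?_; assumption) | (with_reducible refine IntF.comp₂ ?_ ?_ ?_; assumption) | (with_reducible refine IntF.comp₃ ?_ ?_ ?_ ?_; assumption) | with_reducible apply IntF.pair))) n
  have h0 : irec (0 : INat N) (fun _ k => g k) (0 : INat N) = 0 := irec_zero (by (repeat' (first | with_reducible apply memPE | with_reducible apply memPE' | with_reducible apply memPE'' | with_reducible apply memCode | with_reducible apply memCodeP | with_reducible apply memCode₂ | with_reducible apply eqPE | with_reducible apply eqPE' | with_reducible exact IntF.id | with_reducible exact IntF.fst' | with_reducible exact IntF.snd' | with_reducible exact IntF.const _ | with_reducible exact Int.const _ | assumption | with_reducible apply Int.and | with_reducible apply Int.or | with_reducible apply Int.not | with_reducible apply Int.imp | with_reducible apply Int.iff | with_reducible apply Int.ne | with_reducible apply Int.eq | with_reducible apply Int.mem | with_reducible apply Int.subset | with_reducible apply Int.ltN | with_reducible apply Int.leN | with_reducible_and_instances apply Int.le | with_reducible_and_instances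 apply Int.lt | with_reducible apply Int.all | with_reducible apply Int.ex | with_reducible apply IntF.fst | with_reducible apply IntF.snd | with_reducible apply IntF.app | with_reducible apply IntF.inl | with_reducible apply IntF.inr | with_reducible_and_instances apply IntF.mul | with_reducible_and_instances apply IntF.inv | with_reducible_and_instances apply IntF.add | with_reducible_and_instances apply IntF.sub | with_reducible_and_instances apply IntF.neg | with_reducible_and_instances apply IntF.smul | with_reducible apply Int.fin | with_reducible apply IntF.sep | with_reducible apply IntF.lam | with_reducible apply IntF.insert | with_reducible apply IntF.singleton | with_reducible apply IntF.union | with_reducible apply IntF.iimage | with_reducible apply IntF.ite | with_reducible apply IntF.the | with_reducible apply IntF.irec | with_reducible apply IntF.succ | with_reducible apply IntF.val | with_reducible apply IntF.mk | (with_reducible refine Int.comp ?_ ?_; assumption) | (with_reducible refine Int.comp₂ ?_ ?_ ?_; assumption) | (with_reducible refine Int.comp₃ ?_ ?_ ?_ ?_; assumption) | (with_reducible refine Int.comp₄ ?_ ?_ ?_ ?_ ?_; assumption) | (with_reducible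 refine IntF.comp ?_ ?_; assumption) | (with_reducible refine IntF.comp₂ ?_ ?_ ?_; assumption) | (with_reducible refine IntF.comp₃ ?_ ?_ ?_ ?_; assumption) | with_reducible apply IntF.pair)))
  refine ⟨_, hκ, ?_, ?_⟩
  · refine INat.ind (by (repeat' (first | with_reducible apply memPE | with_reducible apply memPE' | with_reducible apply memPE'' | with_reducible apply memCode | with_reducible apply memCodeP | with_reducible apply memCode₂ | with_reducible apply eqPE | with_reducible apply eqPE' | with_reducible exact IntF.id | with_reducible exact IntF.fst' | with_reducible exact IntF.snd' | with_reducible exact IntF.const _ | with_reducible exact Int.const _ | assumption | with_reducible apply Int.and | with_reducible apply Int.or | with_reducible apply Int.not | with_reducible apply Int.imp | with_reducible apply Int.iff | with_reducible apply Int.ne | with_reducible apply Int.eq | with_reducible apply Int.mem | with_reducible apply Int.subset | with_reducible apply Int.ltN | with_reducible apply Int.leN | with_reducible_and_instances apply Int.le | with_reducible_and_instances apply Int.lt | with_reducible apply Int.all | with_reducible apply Int.ex | with_reducible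 apply IntF.fst | with_reducible apply IntF.snd | with_reducible apply IntF.app | with_reducible apply IntF.inl | with_reducible apply IntF.inr | with_reducible_and_instances apply IntF.mul | with_reducible_and_instances apply IntF.inv | with_reducible_and_instances apply IntF.add | with_reducible_and_instances apply IntF.sub | with_reducible_and_instances apply IntF.neg | with_reducible_and_instances apply IntF.smul | with_reducible apply Int.fin | with_reducible apply IntF.sep | with_reducible apply IntF.lam | with_reducible apply IntF.insert | with_reducible apply IntF.singleton | with_reducible apply IntF.union | with_reducible apply IntF.iimage | with_reducible apply IntF.ite | with_reducible apply IntF.the | with_reducible apply IntF.irec | with_reducible apply IntF.succ | with_reducible apply IntF.val | with_reducible apply IntF.mk | (with_reducible refine Int.comp ?_ ?_; assumption) | (with_reducible refine Int.comp₂ ?_ ?_ ?_; assumption) | (with_reducible refine Int.comp₃ ?_ ?_ ?_ ?_; assumption) | (with_reducible refine Int.comp₄ ?_ ?_ ?_ ?_ ?_; assumption) | (with_reducible refine IntF.comp ?_ ?_; assumption) | (with_reducible refine IntF.comp₂ ?_ ?_ ?_; assumption)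 | (with_reducible refine IntF.comp₃ ?_ ?_ ?_ ?_; assumption) | with_reducible apply IntF.pair))) (INat.zero_le _) ?_
    intro n ih
    rw [hs]
    exact INat.succ_le_iff.2 (ih.trans_lt (hg _).1)
  · intro n a b c e
    rw [hs]
    exact (hg _).2 a b c e

include h hq hr in
/-- A compact Hausdorff quasi-metric space is metrizable. -/
theorem exists_metric : ∃ m : Helper672.Plain.El x → Helper672.Plain.El x → Helper672.Plain.El r, IntF N (fun c : Helper672.Plain.El x × Helper672.Plain.El x => m c.1 c.2) ∧
    (∀ a b, m a b = 0 ↔ a = b) ∧ (∀ a b, m a b = m b a) ∧ (∀ a b c, m a c ≤ m a b + m b c) ∧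
    ∀ u, (∀ z, Helper672.Plain.Mem z u → Helper672.Plain.Mem z x) → (Helper672.Plain.Mem u t ↔ ∀ a : Helper672.Plain.El x, Helper672.Plain.Mem a.1 u → ∃ ε : Helper672.Plain.El r, 0 < ε ∧ ∀ b : Helper672.Plain.El x,
      m a b < ε → Helper672.Plain.Mem b.1 u) := by
  have hV := int_VV h hq hr
  obtain ⟨κ, hκ, hκn, hκs⟩ := exists_kappa h hq hr
  have hsep : ∀ a b : Helper672.Plain.El x, (∀ n, VV d q (κ n, (a, b))) → a = b := by
    intro a b hab
    by_contra hne
    obtain ⟨k, hk⟩ := small h hq hr (O := fun c : Helper672.Plain.El x × Helper672.Plain.El x => ¬ (c.1 = a ∧ c.2 = b))
      (by (repeat' (first | with_reducible apply memPE | with_reducible apply memPE' | with_reducible apply memPE'' | with_reducible apply memCode | with_reducible apply memCodeP | with_reducible apply memCode₂ | with_reducible apply eqPE | with_reducible apply eqPE' | with_reducible exact IntF.id | with_reducible exact IntF.fst' | with_reducible exact IntF.snd' | with_reducible exact IntF.const _ | with_reducible exact Int.const _ | assumption | with_reducible apply Int.and | with_reducible apply Int.or | with_reducible apply Int.not | with_reducible apply Int.imp | with_reducible apply Int.iff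 | with_reducible apply Int.ne | with_reducible apply Int.eq | with_reducible apply Int.mem | with_reducible apply Int.subset | with_reducible apply Int.ltN | with_reducible apply Int.leN | with_reducible_and_instances apply Int.le | with_reducible_and_instances apply Int.lt | with_reducible apply Int.all | with_reducible apply Int.ex | with_reducible apply IntF.fst | with_reducible apply IntF.snd | with_reducible apply IntF.app | with_reducible apply IntF.inl | with_reducible apply IntF.inr | with_reducible_and_instances apply IntF.mul | with_reducible_and_instances apply IntF.inv | with_reducible_and_instances apply IntF.add | with_reducible_and_instances apply IntF.sub | with_reducible_and_instances apply IntF.neg | with_reducible_and_instances apply IntF.smul | with_reducible apply Int.fin | with_reducible apply IntF.sep | with_reducible apply IntF.lam | with_reducible apply IntF.insert | with_reducible apply IntF.singleton | with_reducible apply IntF.union | with_reducible apply IntF.iimage | with_reducible apply IntF.ite | with_reducible apply IntF.the | with_reducible apply IntF.irec | with_reducible apply IntF.succ | with_reducible apply IntF.val | with_reducible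 apply IntF.mk | (with_reducible refine Int.comp ?_ ?_; assumption) | (with_reducible refine Int.comp₂ ?_ ?_ ?_; assumption) | (with_reducible refine Int.comp₃ ?_ ?_ ?_ ?_; assumption) | (with_reducible refine Int.comp₄ ?_ ?_ ?_ ?_ ?_; assumption) | (with_reducible refine IntF.comp ?_ ?_; assumption) | (with_reducible refine IntF.comp₂ ?_ ?_ ?_; assumption) | (with_reducible refine IntF.comp₃ ?_ ?_ ?_ ?_; assumption) | with_reducible apply IntF.pair))) fun p => by
        by_cases hp : p = a
        · obtain ⟨v, w, h4, h5, h6, h7, h8⟩ := h.haus a.1 b.1 a.2 b.2 fun h9 => hne (Subtype.ext h9)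
          refine ⟨v, h4, by rw [hp]; exact h6, fun c e hc he h9 => h8 _ ?_ h7⟩
          rw [← h9.2]
          exact he
        · obtain ⟨v, w, h4, h5, h6, h7, h8⟩ := h.haus p.1 a.1 p.2 a.2 fun h9 => hp (Subtype.ext h9)
          refine ⟨v, h4, h6, fun c e hc he h9 => h8 _ ?_ h7⟩
          rw [← h9.1]
          exact hc
    exact hk a b ((hab k).mono hq hr (hκn k)) ⟨rfl, rfl⟩
  have hU : US (fun c : INat N × (Helper672.Plain.El x × Helper672.Plain.El x) => c.1 = 0 ∨ ∃ m, c.1 = INat.succ m ∧
      VV d q (κ m, c.2)) := by
    refine ⟨by (repeat' (first | with_reducible apply memPE | with_reducible apply memPE' | with_reducible apply memPE'' | with_reducible apply memCode | with_reducible apply memCodeP | with_reducible apply memCode₂ | with_reducible apply eqPE | with_reducible apply eqPE' | with_reducible exact IntF.id | with_reducible exact IntF.fst' | with_reducible exact IntF.snd' | with_reducible exact IntF.const _ | with_reducible exact Int.const _ | assumption | with_reducible apply Int.and | with_reducible apply Int.or | with_reducible apply Int.not | with_reducible apply Int.imp | with_reducible apply Int.iff | with_reducible apply Int.ne | with_reducible apply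 Int.eq | with_reducible apply Int.mem | with_reducible apply Int.subset | with_reducible apply Int.ltN | with_reducible apply Int.leN | with_reducible_and_instances apply Int.le | with_reducible_and_instances apply Int.lt | with_reducible apply Int.all | with_reducible apply Int.ex | with_reducible apply IntF.fst | with_reducible apply IntF.snd | with_reducible apply IntF.app | with_reducible apply IntF.inl | with_reducible apply IntF.inr | with_reducible_and_instances apply IntF.mul | with_reducible_and_instances apply IntF.inv | with_reducible_and_instances apply IntF.add | with_reducible_and_instances apply IntF.sub | with_reducible_and_instances apply IntF.neg | with_reducible_and_instances apply IntF.smul | with_reducible apply Int.fin | with_reducible apply IntF.sep | with_reducible apply IntF.lam | with_reducible apply IntF.insert | with_reducible apply IntF.singleton | with_reducible apply IntF.union | with_reducible apply IntF.iimage | with_reducible apply IntF.ite | with_reducible apply IntF.the | with_reducible apply IntF.irec | with_reducible apply IntF.succ | with_reducible apply IntF.val | with_reducible apply IntF.mk | (with_reducible refine Int.comp ?_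 ?_; assumption) | (with_reducible refine Int.comp₂ ?_ ?_ ?_; assumption) | (with_reducible refine Int.comp₃ ?_ ?_ ?_ ?_; assumption) | (with_reducible refine Int.comp₄ ?_ ?_ ?_ ?_ ?_; assumption) | (with_reducible refine IntF.comp ?_ ?_; assumption) | (with_reducible refine IntF.comp₂ ?_ ?_ ?_; assumption) | (with_reducible refine IntF.comp₃ ?_ ?_ ?_ ?_; assumption) | with_reducible apply IntF.pair)), fun a b => Or.inl rfl, fun n a => ?_, fun n a b h1 => ?_,
      fun n a b c e h1 h2 h3 => ?_, fun a b h1 => hsep a b fun n => ?_⟩
    · rcases INat.eq_zero_or_succ n with rfl | ⟨m, rfl⟩
      · exact Or.inl rfl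
      · exact Or.inr ⟨m, rfl, VV.refl h hq _ _⟩
    · exact h1.imp id fun ⟨m, h2, h3⟩ => ⟨m, h2, h3.symm⟩
    · rcases h1 with h1 | ⟨m, h1, h4⟩
      · exact absurd h1 (INat.succ_ne_zero _)
      rcases h2 with h2 | ⟨m', h2, h5⟩
      · exact absurd h2 (INat.succ_ne_zero _)
      rcases h3 with h3 | ⟨m'', h3, h6⟩
      · exact absurd h3 (INat.succ_ne_zero _)
      obtain rfl : n = m := INat.succ_inj h1
      obtain rfl : n = m' := INat.succ_inj h2
      obtain rfl : n = m'' := INat.succ_inj h3
      rcases INat.eq_zero_or_succ n with rfl | ⟨m, rfl⟩
      · exact Or.inl rfl
      · exact Or.inr ⟨m, rfl, hκs m a b c e h4 h5 h6⟩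
    · rcases h1 n.succ with h2 | ⟨m, h2, h3⟩
      · exact absurd h2 (INat.succ_ne_zero _)
      · obtain rfl : n = m := INat.succ_inj h2
        exact h3
  obtain ⟨e, he, he0, hes, het, heU, heL⟩ := exists_dist hq hU hr
  have hadd := int_add hr
  have hsm : ∀ (n : INat N) (a b : Helper672.Plain.El x), e a b < q n.succ → VV d q (κ n, (a, b)) := by
    intro n a b h1
    rcases heL n a b h1 with h2 | ⟨m, h2, h3⟩
    · exact absurd h2 (INat.succ_ne_zero _)
    · obtain rfl : n = m := INat.succ_inj h2
      exact h3
  refine ⟨fun a b => e a b + e b a, by (repeat' (first | with_reducible apply memPE | with_reducible apply memPE' | with_reducible apply memPE'' | with_reducible apply memCode | with_reducible apply memCodeP | with_reducible apply memCode₂ | with_reducible apply eqPE | with_reducible apply eqPE' | with_reducible exact IntF.id | with_reducible exact IntF.fst' | with_reducible exact IntF.snd' | with_reducible exact IntF.const _ | with_reducible exact Int.const _ | assumption | with_reducible apply Int.and | with_reducible apply Int.or | with_reducible apply Int.not | with_reducible apply Int.imp | with_reducible apply Int.iff | with_reducible apply Int.ne | with_reducible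 apply Int.eq | with_reducible apply Int.mem | with_reducible apply Int.subset | with_reducible apply Int.ltN | with_reducible apply Int.leN | with_reducible_and_instances apply Int.le | with_reducible_and_instances apply Int.lt | with_reducible apply Int.all | with_reducible apply Int.ex | with_reducible apply IntF.fst | with_reducible apply IntF.snd | with_reducible apply IntF.app | with_reducible apply IntF.inl | with_reducible apply IntF.inr | with_reducible_and_instances apply IntF.mul | with_reducible_and_instances apply IntF.inv | with_reducible_and_instances apply IntF.add | with_reducible_and_instances apply IntF.sub | with_reducible_and_instances apply IntF.neg | with_reducible_and_instances apply IntF.smul | with_reducible apply Int.fin | with_reducible apply IntF.sep | with_reducible apply IntF.lam | with_reducible apply IntF.insert | with_reducible apply IntF.singleton | with_reducible apply IntF.union | with_reducible apply IntF.iimage | with_reducible apply IntF.ite | with_reducible apply IntF.the | with_reducible apply IntF.irec | with_reducible apply IntF.succ | with_reducible apply IntF.val | with_reducible apply IntF.mk | (with_reducible refine Int.comp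 ?_ ?_; assumption) | (with_reducible refine Int.comp₂ ?_ ?_ ?_; assumption) | (with_reducible refine Int.comp₃ ?_ ?_ ?_ ?_; assumption) | (with_reducible refine Int.comp₄ ?_ ?_ ?_ ?_ ?_; assumption) | (with_reducible refine IntF.comp ?_ ?_; assumption) | (with_reducible refine IntF.comp₂ ?_ ?_ ?_; assumption) | (with_reducible refine IntF.comp₃ ?_ ?_ ?_ ?_; assumption) | with_reducible apply IntF.pair)), fun a b => ⟨fun h1 => ?_, ?_⟩, fun a b =>
    add_comm _ _, fun a b c => ?_, fun u hux => ⟨fun hu a ha => ?_, fun h1 => ?_⟩⟩
  · refine hsep a b fun n => hsm n a b ?_
    have h2 := he0 a b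
    have h3 := he0 b a
    have h4 := hq.pos n.succ
    replace h1 : e a b + e b a = 0 := h1
    linarith
  · rintro rfl
    change e a a + e a a = 0
    rw [hes, add_zero]
  · have h1 := het a b c
    have h2 := het c b a
    change e a c + e c a ≤ e a b + e b a + (e b c + e c b)
    linarith
  · have hu' := memI' x u
    obtain ⟨k, hk⟩ := small h hq hr (O := fun c : Helper672.Plain.El x × Helper672.Plain.El x => c.1 = a → Helper672.Plain.Mem c.2.1 u)
      (by (repeat' (first | with_reducible apply memPE | with_reducible apply memPE' | with_reducible apply memPE'' | with_reducible apply memCode | with_reducible apply memCodeP | with_reducible apply memCode₂ | with_reducible apply eqPE | with_reducible apply eqPE' | with_reducible exact IntF.id | with_reducible exact IntF.fst' | with_reducible exact IntF.snd' | with_reducible exact IntF.const _ | with_reducible exact Int.const _ | assumption | with_reducible apply Int.and | with_reducible apply Int.or | with_reducible apply Int.not | with_reducible apply Int.imp | with_reducible apply Int.iff | with_reducible apply Int.ne | with_reducible apply Int.eq | with_reducible apply Int.mem | with_reducible apply Int.subset |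 with_reducible apply Int.ltN | with_reducible apply Int.leN | with_reducible_and_instances apply Int.le | with_reducible_and_instances apply Int.lt | with_reducible apply Int.all | with_reducible apply Int.ex | with_reducible apply IntF.fst | with_reducible apply IntF.snd | with_reducible apply IntF.app | with_reducible apply IntF.inl | with_reducible apply IntF.inr | with_reducible_and_instances apply IntF.mul | with_reducible_and_instances apply IntF.inv | with_reducible_and_instances apply IntF.add | with_reducible_and_instances apply IntF.sub | with_reducible_and_instances apply IntF.neg | with_reducible_and_instances apply IntF.smul | with_reducible apply Int.fin | with_reducible apply IntF.sep | with_reducible apply IntF.lam | with_reducible apply IntF.insert | with_reducible apply IntF.singleton | with_reducible apply IntF.union | with_reducible apply IntF.iimage | with_reducible apply IntF.ite | with_reducible apply IntF.the | with_reducible apply IntF.irec | with_reducible apply IntF.succ | with_reducible apply IntF.val | with_reducible apply IntF.mk | (with_reducible refine Int.comp ?_ ?_; assumption) | (with_reducible refine Int.comp₂ ?_ ?_ ?_; assumption)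 | (with_reducible refine Int.comp₃ ?_ ?_ ?_ ?_; assumption) | (with_reducible refine Int.comp₄ ?_ ?_ ?_ ?_ ?_; assumption) | (with_reducible refine IntF.comp ?_ ?_; assumption) | (with_reducible refine IntF.comp₂ ?_ ?_ ?_; assumption) | (with_reducible refine IntF.comp₃ ?_ ?_ ?_ ?_; assumption) | with_reducible apply IntF.pair))) fun p => by
        by_cases hp : p = a
        · exact ⟨u, hu, by rw [hp]; exact ha, fun c e hc he _ => he⟩
        · obtain ⟨v, w, h4, h5, h6, h7, h8⟩ := h.haus p.1 a.1 p.2 a.2 fun h9 => hp (Subtype.ext h9)
          refine ⟨v, h4, h6, fun c e hc he h9 => absurd h7 (h8 _ ?_)⟩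
          rw [← h9]
          exact hc
    refine ⟨q k.succ, hq.pos _, fun b hb => hk a b ((hsm k a b ?_).mono hq hr (hκn k)) rfl⟩
    have h2 := he0 b a
    replace hb : e a b + e b a < q k.succ := hb
    linarith
  · refine open_of_local h.top fun z₀ hz => ?_
    obtain ⟨z, rfl⟩ : ∃ z : Helper672.Plain.El x, z.1 = z₀ := ⟨⟨z₀, hux z₀ hz⟩, rfl⟩
    obtain ⟨ε, hε, h2⟩ := h1 z hz
    obtain ⟨n, hn⟩ := hq.lim ε hε
    obtain ⟨v, hv, hzv, h3⟩ := exists_ball h hr z (q (κ n)) (hq.pos _)
    refine ⟨v, hv, hzv, fun z₁ hz' => ?_⟩
    obtain ⟨z', rfl⟩ : ∃ z' : Helper672.Plain.El x, z'.1 = z₁ := ⟨⟨z₁, h.top.sub v hv _ hz'⟩, rfl⟩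
    refine h2 z' ?_
    have h0 : d z z < q (κ n) := by
      rw [h.self]
      exact hq.pos _
    have h4 : VV d q (κ n, (z, z')) := ⟨z, h0, (h3 _).1 hz'⟩
    have h5 := heU n.succ _ _ (Or.inr ⟨n, rfl, h4⟩)
    have h6 := heU n.succ _ _ (Or.inr ⟨n, rfl, h4.symm⟩)
    have h7 := hq.succ n
    change e z z' + e z' z < ε
    linarith

end

section

variable {N : Type u} [LSet.Structure N] [hM : IsModel N] {x t : N}
variable {r : N} [Field (Helper672.Plain.El r)] [LinearOrder (Helper672.Plain.El r)] [IsStrictOrderedRing (Helper672.Plain.El r)]

theorem dom_PE : dom N (Helper672.Plain.El x) = x := extN fun z => mem_domP.trans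
  ⟨fun ⟨a, ha⟩ => ha ▸ a.2, fun hz => ⟨⟨z, hz⟩, rfl⟩⟩

/-- The open sets of the topology generated by the balls. -/
theorem induces_op {d : Helper672.Plain.El x → Helper672.Plain.El x → Helper672.Plain.El r} (hr : IsReals r)
    (hd : IntF N (fun c : Helper672.Plain.El x × Helper672.Plain.El x => d c.1 c.2)) (ht : ∀ a b c, d a c ≤ d a b + d b c)
    (h : Induces d t) : ∀ u, Helper672.Plain.Mem u t → ∀ a : Helper672.Plain.El x, Helper672.Plain.Mem a.1 u → ∃ ε, 0 < ε ∧ ∀ b : Helper672.Plain.El x, d a b < ε →
      Helper672.Plain.Mem b.1 u := by
  have hlt := int_lt hr
  have hO : TpO (N := N) (fun U : IPow N (Helper672.Plain.El x) => ∀ a, a ∈ U → ∃ ε : Helper672.Plain.El r, 0 < ε ∧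
      ∀ b : Helper672.Plain.El x, d a b < ε → b ∈ U) := by
    refine tpO_of (Nb := fun a U => ∃ ε : Helper672.Plain.El r, 0 < ε ∧ ∀ b : Helper672.Plain.El x, d a b < ε → b ∈ U)
      (by (repeat' (first | with_reducible apply memPE | with_reducible apply memPE' | with_reducible apply memPE'' | with_reducible apply memCode | with_reducible apply memCodeP | with_reducible apply memCode₂ | with_reducible apply eqPE | with_reducible apply eqPE' | with_reducible exact IntF.id | with_reducible exact IntF.fst' | with_reducible exact IntF.snd' | with_reducible exact IntF.const _ | with_reducible exact Int.const _ | assumption | with_reducible apply Int.and | with_reducible apply Int.or | with_reducible apply Int.not | with_reducible apply Int.imp | with_reducible apply Int.iff | with_reducible apply Int.ne | with_reducible apply Int.eq | with_reducible apply Int.mem | with_reducible apply Int.subset | with_reducible apply Int.ltN | with_reducible apply Int.leN | with_reducible_and_instances apply Int.le | with_reducible_and_instances apply Int.lt | with_reducible apply Int.all | with_reducible apply Int.ex | with_reducible apply IntF.fst | with_reducible apply IntF.snd | with_reducible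 apply IntF.app | with_reducible apply IntF.inl | with_reducible apply IntF.inr | with_reducible_and_instances apply IntF.mul | with_reducible_and_instances apply IntF.inv | with_reducible_and_instances apply IntF.add | with_reducible_and_instances apply IntF.sub | with_reducible_and_instances apply IntF.neg | with_reducible_and_instances apply IntF.smul | with_reducible apply Int.fin | with_reducible apply IntF.sep | with_reducible apply IntF.lam | with_reducible apply IntF.insert | with_reducible apply IntF.singleton | with_reducible apply IntF.union | with_reducible apply IntF.iimage | with_reducible apply IntF.ite | with_reducible apply IntF.the | with_reducible apply IntF.irec | with_reducible apply IntF.succ | with_reducible apply IntF.val | with_reducible apply IntF.mk | (with_reducible refine Int.comp ?_ ?_; assumption) | (with_reducible refine Int.comp₂ ?_ ?_ ?_; assumption) | (with_reducible refine Int.comp₃ ?_ ?_ ?_ ?_; assumption) | (with_reducible refine Int.comp₄ ?_ ?_ ?_ ?_ ?_; assumption) | (with_reducible refine IntF.comp ?_ ?_; assumption) | (with_reducible refine IntF.comp₂ ?_ ?_ ?_; assumption) | (with_reducible refine IntF.comp₃ ?_ ?_ ?_ ?_; assumption)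 | with_reducible apply IntF.pair))) ?_ ?_ ?_
    · rintro a U V ⟨ε, h1, h2⟩ h3
      exact ⟨ε, h1, fun b hb => h3 b (h2 b hb)⟩
    · rintro a U V W ⟨ε, h1, h2⟩ ⟨δ, h3, h4⟩ h5
      exact ⟨min ε δ, lt_min h1 h3, fun b hb => (h5 b).2 ⟨h2 b (hb.trans_le (min_le_left _ _)),
        h4 b (hb.trans_le (min_le_right _ _))⟩⟩
    · intro a U h1
      exact ⟨1, one_pos, fun b _ => h1 b⟩
  have h1 := isTopology_tp hO
  rw [dom_PE] at h1
  intro u hu a ha
  have h2 := h.2.2 _ h1 (fun v b ε hε hb => by
    obtain ⟨V, rfl, hV⟩ := exists_code (a := x) hb.1
    refine mem_tp'.2 fun c hc => ?_
    have h3 : d b c < ε := (hb.2 c).1 ((hV c).1 hc)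
    refine ⟨ε - d b c, by linarith, fun e he => (hV e).2 ((hb.2 e).2 ?_)⟩
    have := ht b c e
    linarith) u hu
  obtain ⟨U, hU, rfl⟩ := mem_tp.1 h2
  obtain ⟨ε, h3, h4⟩ := hU a (mem_cp'.1 ha)
  exact ⟨ε, h3, fun b hb => mem_cp'.2 (h4 b hb)⟩

theorem induces_of {m : Helper672.Plain.El x → Helper672.Plain.El x → Helper672.Plain.El r} (hr : IsReals r)
    (hm : IntF N (fun c : Helper672.Plain.El x × Helper672.Plain.El x => m c.1 c.2)) (hs : ∀ a, m a a = 0)
    (htri : ∀ a b c, m a c ≤ m a b + m b c) (ht : IsTopology t x)
    (h : ∀ u, (∀ z, Helper672.Plain.Mem z u → Helper672.Plain.Mem z x) → (Helper672.Plain.Mem u t ↔ ∀ a : Helper672.Plain.El x, Helper672.Plain.Mem a.1 u → ∃ ε : Helper672.Plain.El r, 0 < ε ∧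
      ∀ b : Helper672.Plain.El x, m a b < ε → Helper672.Plain.Mem b.1 u)) : Induces m t := by
  have hlt := int_lt hr
  refine ⟨ht, fun u a ε hε hb => (h u hb.1).2 fun c hc => ?_, fun t' ht' h1 u hu => ?_⟩
  · have h3 : m a c < ε := (hb.2 c).1 hc
    refine ⟨ε - m a c, by linarith, fun e he => (hb.2 e).2 ?_⟩
    have := htri a c e
    linarith
  · refine open_of_local ht' fun z₀ hz => ?_
    obtain ⟨z, rfl⟩ : ∃ z : Helper672.Plain.El x, z.1 = z₀ := ⟨⟨z₀, ht.sub u hu z₀ hz⟩, rfl⟩
    obtain ⟨ε, hε, h2⟩ := (h u (ht.sub u hu)).1 hu z hz
    obtain ⟨v, hv⟩ := exists_set (p := fun b : Helper672.Plain.El x => m z b < ε) (by (repeat' (first | with_reducible apply memPE | with_reducible apply memPE' | with_reducible apply memPE'' | with_reducible apply memCode | with_reducible apply memCodeP | with_reducible apply memCode₂ | with_reducible apply eqPE | with_reducible apply eqPE' | with_reducible exact IntF.id | with_reducible exact IntF.fst' | with_reducible exact IntF.snd' | with_reducible exact IntF.const _ | with_reducible exact Int.const _ | assumption | with_reducible apply Int.and | with_reducible apply Int.or | with_reducible apply Int.not | with_reducible apply Int.imp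 | with_reducible apply Int.iff | with_reducible apply Int.ne | with_reducible apply Int.eq | with_reducible apply Int.mem | with_reducible apply Int.subset | with_reducible apply Int.ltN | with_reducible apply Int.leN | with_reducible_and_instances apply Int.le | with_reducible_and_instances apply Int.lt | with_reducible apply Int.all | with_reducible apply Int.ex | with_reducible apply IntF.fst | with_reducible apply IntF.snd | with_reducible apply IntF.app | with_reducible apply IntF.inl | with_reducible apply IntF.inr | with_reducible_and_instances apply IntF.mul | with_reducible_and_instances apply IntF.inv | with_reducible_and_instances apply IntF.add | with_reducible_and_instances apply IntF.sub | with_reducible_and_instances apply IntF.neg | with_reducible_and_instances apply IntF.smul | with_reducible apply Int.fin | with_reducible apply IntF.sep | with_reducible apply IntF.lam | with_reducible apply IntF.insert | with_reducible apply IntF.singleton | with_reducible apply IntF.union | with_reducible apply IntF.iimage | with_reducible apply IntF.ite | with_reducible apply IntF.the | with_reducible apply IntF.irec | with_reducible apply IntF.succ | with_reducible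 apply IntF.val | with_reducible apply IntF.mk | (with_reducible refine Int.comp ?_ ?_; assumption) | (with_reducible refine Int.comp₂ ?_ ?_ ?_; assumption) | (with_reducible refine Int.comp₃ ?_ ?_ ?_ ?_; assumption) | (with_reducible refine Int.comp₄ ?_ ?_ ?_ ?_ ?_; assumption) | (with_reducible refine IntF.comp ?_ ?_; assumption) | (with_reducible refine IntF.comp₂ ?_ ?_ ?_; assumption) | (with_reducible refine IntF.comp₃ ?_ ?_ ?_ ?_; assumption) | with_reducible apply IntF.pair)))
    refine ⟨v, h1 v z ε hε ⟨fun w hw => ((hv w).1 hw).1, fun b => ?_⟩, (hv z.1).2 ⟨z.2, ?_⟩,
      fun w hw => ?_⟩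
    · rw [hv b.1]
      exact ⟨fun ⟨_, h3⟩ => h3, fun h3 => ⟨b.2, h3⟩⟩
    · have h3 : m z z < ε := by
        rw [hs]
        exact hε
      exact h3
    · obtain ⟨hwx, h3⟩ := (hv w).1 hw
      exact h2 ⟨w, hwx⟩ h3

/-- A compact Hausdorff quasi-metrizable space is metrizable. -/
theorem main (hr : IsReals r) {d : Helper672.Plain.El x → Helper672.Plain.El x → Helper672.Plain.El r} (hd : IsQuasiMetric d) (hi : Induces d t)
    (hc : IsCompact t x) (hh : IsHausdorff t x) :
    ∃ m : Helper672.Plain.El x → Helper672.Plain.El x → Helper672.Plain.El r, IsMetric m ∧ Induces m t := by
  have hdI : IntF N (fun c : Helper672.Plain.El x × Helper672.Plain.El x => d c.1 c.2) := isMap₂_iff.1 hd.graph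
  obtain ⟨q, hq⟩ := exists_hs hr
  obtain ⟨m, h1, h2, h3, h4, h5⟩ := exists_metric (t := t) (d := d) ⟨hdI, hd.nonneg, hd.self, hd.tri,
    hi.1, induces_op hr hdI hd.tri hi, hi.2.1, hc, hh⟩ hq hr
  exact ⟨m, ⟨isMap₂_iff.2 h1, h2, h3, h4⟩, induces_of hr h1 (fun a => (h2 a a).2 rfl) h4 hi.1 h5⟩

end

end Pool.Agent.Q301.QM
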